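import Pool.Agent.K9h36.LG.Base

/-!
Generic points of varieties over number fields: algebraic relations between the coordinates come from
rational relations.
-/

set_option autoImplicit false

namespace Pool.Agent.K9h36.LG

open MvPolynomial
open Pool.Agent.W602.GT (SubVar GeneralType coords)
open Pool.Agent.N254.SQ (IsForm Eqs Component GenericPoint SmoothOver powerFormOver Gen Idl Good
  Mon ver pull reduce Fm eval₂_scale)

theorem scale {K : Type} [Field K] {n e : ℕ} {Ω : Type} [Field Ω] [Algebra K Ω]
    {G : MvPolynomial (Fin (n + 1)) K} (hG : G.IsHomogeneous e) (c : Ω) (x : Fin (n + 1) → Ω) :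
    aeval (c • x) G = c ^ e * aeval x G := eval₂_scale (algebraMap K Ω) hG c x

/-- homogenization with respect to one variable -/
theorem homog {K : Type} [Field K] {n : ℕ} (a : Fin (n + 1)) (P : MvPolynomial (Fin (n + 1)) K) :
    ∃ (e : ℕ) (G : MvPolynomial (Fin (n + 1)) K), G.IsHomogeneous e ∧
      ∀ (Ω : Type) [Field Ω] [Algebra K Ω] (x : Fin (n + 1) → Ω), x a ≠ 0 →
        aeval x G = x a ^ e * aeval (fun j => x j / x a) P := by
  refine ⟨P.totalDegree, ∑ i ∈ Finset.range (P.totalDegree + 1),
    X a ^ (P.totalDegree - i) * homogeneousComponent i P, ?_, ?_⟩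
  · refine IsHomogeneous.sum _ _ _ fun i hi => ?_
    rw [Finset.mem_range] at hi
    have h1 := ((isHomogeneous_X K a).pow (P.totalDegree - i)).mul
      (homogeneousComponent_isHomogeneous i P)
    rw [one_mul, Nat.sub_add_cancel (by omega)] at h1
    exact h1
  · intro Ω _ _ x hx
    have hx2 : x = x a • fun j => x j / x a := by
      funext j
      rw [Pi.smul_apply, smul_eq_mul, mul_div_cancel₀ _ hx]
    have hP : aeval (fun j => x j / x a) P = ∑ i ∈ Finset.range (P.totalDegree + 1),
        aeval (fun j => x j / x a) (homogeneousComponent i P) := by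
      rw [← map_sum, sum_homogeneousComponent]
    rw [hP, map_sum, Finset.mul_sum]
    refine Finset.sum_congr rfl fun i hi => ?_
    rw [Finset.mem_range] at hi
    have h2 : aeval x (homogeneousComponent i P) =
        x a ^ i * aeval (fun j => x j / x a) (homogeneousComponent i P) := by
      conv_lhs => rw [hx2]
      exact scale (homogeneousComponent_isHomogeneous i P) _ _
    rw [map_mul, map_pow, aeval_X, h2, ← mul_assoc, ← pow_add, Nat.sub_add_cancel (by omega)]

section

variable {k : Type} [Field k] [Algebra k ℂ] {n : ℕ}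
  {S : Set (MvPolynomial (Fin (n + 1)) k)} {L : Type} [Field L] [Algebra ℂ L] {w : ℕ}
  {y : Fin (n + 1) → L}

/-- a form with algebraic coefficients vanishing at the algebraic points vanishes at the generic
point -/
theorem at_generic (B : Type) [Field B] [IsAlgClosed B] [Algebra k B] [Algebra B ℂ]
    [IsScalarTower k B ℂ] [Algebra B L] [IsScalarTower B ℂ L] (hy : GenericPoint S L w y)
    (G : MvPolynomial (Fin (n + 1)) B)
    (h : ∀ x : Fin (n + 1) → B, (∀ p ∈ S, aeval x p = 0) → eval x G = 0) : aeval y G = 0 := by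
  refine null (k := B) (C := B) (map (algebraMap k B) '' S) G (fun x hx => ?_) L y ?_
  · exact h x fun p hp => by
      have h1 := hx _ ⟨p, hp, rfl⟩
      rw [aeval_def, eval₂_map] at h1
      exact h1
  · rintro _ ⟨p, hp, rfl⟩
    have h1 : aeval y (map (algebraMap k ℂ) p) = 0 := hy.sub.mem ⟨p, hp⟩
    rw [aeval_def, eval₂_map] at h1 ⊢
    rw [← h1]
    congr 1
    ext z
    rw [RingHom.comp_apply, RingHom.comp_apply, IsScalarTower.algebraMap_apply B ℂ L,
      ← IsScalarTower.algebraMap_apply k B ℂ]

/-- rationally independent ratios of coordinates are independent over `ℂ` -/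
theorem indep (B : Type) [Field B] [CharZero B] [IsAlgClosed B] [Algebra k B] [Algebra B ℂ]
    [IsScalarTower k B ℂ] [Algebra B L] [IsScalarTower B ℂ L] [CharZero L]
    [Algebra.IsAlgebraic ℚ B] (hS : ∀ p ∈ S, ∃ e, p.IsHomogeneous e) (hy : GenericPoint S L w y)
    {a : Fin (n + 1)} (hya : y a ≠ 0) {ι : Type} (b : ι → Fin (n + 1))
    (h : AlgebraicIndependent ℚ (fun i => y (b i) / y a)) :
    AlgebraicIndependent ℂ (fun i => y (b i) / y a) := by
  have hB : AlgebraicIndependent B (fun i => y (b i) / y a) := h.extendScalars B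
  rw [algebraicIndependent_iff]
  intro P hP
  have ren : ∀ {K : Type} [Field K] {Ω : Type} [Field Ω] [Algebra K Ω] (x : Fin (n + 1) → Ω)
      (g : MvPolynomial ι K), aeval x (rename b g) = aeval (fun i => x (b i)) g := by
    intro K _ Ω _ _ x g
    rw [aeval_rename]
    rfl
  obtain ⟨e, G, hG, hG2⟩ := homog a (rename b P)
  have hGy : aeval y G = 0 := by
    rw [hG2 L y hya, ren, hP, mul_zero]
  have hall := hy.all G ⟨e, hG⟩ hGy
  obtain ⟨T, hT⟩ : ∃ T : Set (ι → B), T = {t | ∃ x : Fin (n + 1) → B, x a = 1 ∧
    (∀ p ∈ S, aeval x p = 0) ∧ ∀ i, t i = x (b i)} := ⟨_, rfl⟩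
  have emb : ∀ x : Fin (n + 1) → B, (∀ p ∈ S, aeval x p = 0) → ∀ p ∈ S,
      aeval (fun j => algebraMap B ℂ (x j)) p = 0 := by
    intro x hx p hp
    have h1 : aeval (fun j => algebraMap B ℂ (x j)) p = algebraMap B ℂ (aeval x p) := by
      exact MvPolynomial.aeval_algebraMap_apply ℂ x p
    rw [h1, hx p hp, map_zero]
  obtain ⟨r, c, g, -, hg2, hg3⟩ := desc T P (by
    intro t ht
    rw [hT] at ht
    obtain ⟨x, hxa, hxS, hxt⟩ := ht
    have h1 := hall (fun j => algebraMap B ℂ (x j)) (emb x hxS)
    have h2 := hG2 ℂ (fun j => algebraMap B ℂ (x j)) (by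
      simp only [hxa, map_one]
      exact one_ne_zero)
    rw [ren] at h2
    simp only [hxa, map_one, one_pow, div_one, one_mul] at h2
    have h3 : (fun j => algebraMap B ℂ (t j)) = fun i => algebraMap B ℂ (x (b i)) :=
      funext fun i => by rw [hxt]
    rw [h3]
    rw [← h1]
    exact h2.symm)
  have hzero : ∀ i, g i = 0 := by
    intro i
    rw [algebraicIndependent_iff] at hB
    apply hB
    obtain ⟨e', G', hG', hG2'⟩ := homog a (rename b (g i))
    have h1 : aeval y (X a * G') = 0 := by
      apply at_generic B hy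
      intro x hxS
      rw [map_mul, eval_X]
      by_cases hxa : x a = 0
      · rw [hxa, zero_mul]
      have h2 := hG2' B x hxa
      rw [ren] at h2
      have h3 := hg2 i (fun i => x (b i) / x a) (by
        rw [hT]
        refine ⟨fun j => x j / x a, div_self hxa, fun p hp => ?_, fun i => rfl⟩
        obtain ⟨e'', he''⟩ := hS p hp
        have h4 : (fun j => x j / x a) = (x a)⁻¹ • x := by
          funext j
          rw [Pi.smul_apply, smul_eq_mul, div_eq_inv_mul]
        rw [h4, scale he'', hxS p hp, mul_zero])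
      have h5 : eval x G' = 0 := by
        have h6 : aeval (fun i => x (b i) / x a) (g i) = 0 := h3
        rw [h6, mul_zero] at h2
        exact h2
      rw [h5, mul_zero]
    rw [map_mul, aeval_X, mul_eq_zero] at h1
    have h2 := h1.resolve_left hya
    rw [hG2' L y hya, mul_eq_zero] at h2
    have h3 := h2.resolve_left (pow_ne_zero _ hya)
    rw [ren] at h3
    exact h3
  rw [hg3]
  exact Finset.sum_eq_zero fun i _ => by rw [hzero i, map_zero, mul_zero]

end

end Pool.Agent.K9h36.LG
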