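import Pool.Agent.N254.SQ.Fin3
import Pool.Agent.N254.SQ.Key
import Pool.Agent.N254.SQ.IdlR
import Pool.Agent.N254.SQ.RestrR
import Pool.Agent.N254.SQ.Comp
import Pool.Agent.N254.SQ.LocDefs2

/-!
Rational points on projective varieties and on smooth hypersurfaces containing them: zeros over
extensions, forms over subfields, the choice of the hypersurface.
-/

set_option autoImplicit false

namespace Pool.Agent.K9h36.LG

open MvPolynomial
open Pool.Agent.W602.GT (SubVar GeneralType coords)
open Pool.Agent.N254.SQ (IsForm Eqs Component GenericPoint SmoothOver powerFormOver Gen Idl Good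
  Mon ver pull reduce Fm)

/-- a polynomial vanishing at the zeros over an algebraically closed extension vanishes at the zeros
over all extensions -/
theorem null {k : Type} [Field k] {C : Type} [Field C] [IsAlgClosed C] [Algebra k C] {n : ℕ}
    (S : Set (MvPolynomial (Fin (n + 1)) k)) (G : MvPolynomial (Fin (n + 1)) k)
    (h : ∀ x : Fin (n + 1) → C, (∀ p ∈ S, aeval x p = 0) → aeval x G = 0)
    (Ω : Type) [Field Ω] [Algebra k Ω] (x : Fin (n + 1) → Ω) (hx : ∀ p ∈ S, aeval x p = 0) :
    aeval x G = 0 := by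
  have h1 : G ∈ vanishingIdeal k (zeroLocus C (Ideal.span S)) := by
    rw [mem_vanishingIdeal_iff]
    intro z hz
    rw [zeroLocus_span] at hz
    exact h z hz
  rw [vanishingIdeal_zeroLocus_eq_radical] at h1
  obtain ⟨r, hr⟩ := h1
  have h2 : Ideal.span S ≤ RingHom.ker (aeval x : MvPolynomial (Fin (n + 1)) k →ₐ[k] Ω) :=
    Ideal.span_le.2 fun p hp => hx p hp
  have h3 := h2 hr
  rw [RingHom.mem_ker, map_pow] at h3
  by_contra h4
  exact pow_ne_zero r h4 h3

/-- a polynomial vanishing at points with coordinates in a subfield is a combination of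
polynomials over the subfield vanishing at these points -/
theorem desc {K C : Type} [Field K] [Field C] [Algebra K C] {σ : Type} (T : Set (σ → K))
    (G : MvPolynomial σ C) (h : ∀ x ∈ T, eval (fun j => algebraMap K C (x j)) G = 0) :
    ∃ (r : ℕ) (b : Fin r → C) (g : Fin r → MvPolynomial σ K),
      (∀ i e, G.IsHomogeneous e → (g i).IsHomogeneous e) ∧ (∀ i, ∀ x ∈ T, eval x (g i) = 0) ∧
      G = ∑ i, MvPolynomial.C (b i) * map (algebraMap K C) (g i) := by
  classical
  let B := Module.Basis.ofVectorSpace K C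
  let g : (Module.Basis.ofVectorSpaceIndex K C) → MvPolynomial σ K := fun b =>
    ∑ α ∈ G.support, monomial α (B.repr (coeff α G) b)
  have hg : ∀ b α, coeff α (g b) = B.repr (coeff α G) b := by
    intro b α
    simp only [g, coeff_sum, coeff_monomial]
    rw [Finset.sum_ite_eq']
    split_ifs with h
    · rfl
    · rw [notMem_support_iff.1 h]
      simp
  let S : Finset (Module.Basis.ofVectorSpaceIndex K C) :=
    G.support.biUnion fun α => (B.repr (coeff α G)).support
  have hrepr : ∀ α, ∑ b ∈ S, B b * algebraMap K C (B.repr (coeff α G) b) = coeff α G := by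
    intro α
    have h1 := B.linearCombination_repr (coeff α G)
    rw [Finsupp.linearCombination_apply, Finsupp.sum] at h1
    by_cases hα : α ∈ G.support
    · have hsub : (B.repr (coeff α G)).support ⊆ S :=
        Finset.subset_biUnion_of_mem (fun α => (B.repr (coeff α G)).support) hα
      rw [← Finset.sum_subset hsub]
      · conv_rhs => rw [← h1]
        refine Finset.sum_congr rfl fun b _ => ?_
        rw [Algebra.smul_def, mul_comm]
      · intro b _ hb
        rw [Finsupp.notMem_support_iff.1 hb, map_zero, mul_zero]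
    · rw [notMem_support_iff.1 hα]
      refine Finset.sum_eq_zero fun b _ => ?_
      simp
  have hsum : G = ∑ b ∈ S, MvPolynomial.C (B b) * map (algebraMap K C) (g b) := by
    ext α
    rw [coeff_sum, ← hrepr α]
    refine Finset.sum_congr rfl fun b _ => ?_
    rw [coeff_C_mul, coeff_map, hg]
  have hhom : ∀ b e, G.IsHomogeneous e → (g b).IsHomogeneous e := by
    intro b e hG α hα
    apply hG
    intro h
    apply hα
    rw [hg, h]
    simp
  have hval : ∀ b ∈ S, ∀ x ∈ T, eval x (g b) = 0 := by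
    intro b hb x hx
    have hx' : ∀ p : MvPolynomial σ K,
        eval (fun j => algebraMap K C (x j)) (map (algebraMap K C) p) =
          algebraMap K C (eval x p) := by
      intro p
      rw [eval_map]
      exact (eval₂_comp (algebraMap K C) x p).symm
    have h1 := h x hx
    rw [hsum, map_sum] at h1
    have h2 : ∑ b ∈ S, (eval x (g b)) • B b = 0 := by
      rw [← h1]
      refine Finset.sum_congr rfl fun b _ => ?_
      rw [map_mul, eval_C, hx', Algebra.smul_def, mul_comm]
    exact linearIndependent_iff'.1 B.linearIndependent S (fun b => eval x (g b)) h2 b hb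
  refine ⟨S.card, fun i => B (S.equivFin.symm i).1, fun i => g (S.equivFin.symm i).1,
    fun i => hhom _, fun i x hx => hval _ (S.equivFin.symm i).2 x hx, ?_⟩
  rw [hsum, ← Finset.sum_coe_sort S]
  exact (Equiv.sum_comp S.equivFin.symm
    (fun b : S => MvPolynomial.C (B b.1) * map (algebraMap K C) (g b.1))).symm

theorem aeval_map' {K : Type} [Field K] [Algebra K ℂ] {n : ℕ} {Ω : Type} [Field Ω] [Algebra ℂ Ω]
    (x : Fin (n + 1) → Ω) (p : MvPolynomial (Fin (n + 1)) K) :
    aeval x (map (algebraMap K ℂ) p) =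
      eval x (map ((algebraMap ℂ Ω).comp (algebraMap K ℂ)) p) := by
  rw [aeval_def, eval₂_map, eval_map]

theorem eval_emb {K C : Type} [Field K] [Field C] [Algebra K C] {n : ℕ} (x : Fin (n + 1) → K)
    (p : MvPolynomial (Fin (n + 1)) K) :
    eval (fun j => algebraMap K C (x j)) (map (algebraMap K C) p) = algebraMap K C (eval x p) := by
  rw [eval_map]
  exact (eval₂_comp (algebraMap K C) x p).symm

theorem emb_ne {K C : Type} [Field K] [Field C] [Algebra K C] {n : ℕ} {x : Fin (n + 1) → K}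
    (hx : x ≠ 0) : (fun j => algebraMap K C (x j)) ≠ 0 := by
  intro h
  apply hx
  funext j
  have h1 := congrFun h j
  simp only [Pi.zero_apply, map_eq_zero] at h1
  exact h1

/-- subvarieties of positive dimension exist in spaces of positive dimension only -/
theorem dim_pos {n : ℕ} {L : Type} [Field L] [Algebra ℂ L] {w : ℕ} {y : Fin (n + 1) → L}
    (hgen : coords ℂ y = ⊤) (hdim : Algebra.trdeg ℂ L = w) (hw : 1 ≤ w) : 1 ≤ n := by
  by_contra hn
  have hn0 : n = 0 := by omega
  subst hn0
  have h3 : coords ℂ y ≤ ⊥ := by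
    apply IntermediateField.adjoin_le_iff.2
    rintro _ ⟨i, j, hj, rfl⟩
    have e1 : i = 0 := Fin.ext (by omega)
    have e2 : j = 0 := Fin.ext (by omega)
    subst e1
    subst e2
    rw [div_self hj]
    exact one_mem _
  rw [hgen, top_le_iff] at h3
  have h4 : Algebra.trdeg ℂ L = 0 := by
    have h5 : Algebra.IsAlgebraic ℂ L := by
      refine ⟨fun z => ?_⟩
      have h6 : z ∈ (⊥ : IntermediateField ℂ L) := by
        rw [h3]
        trivial
      obtain ⟨a, rfl⟩ := IntermediateField.mem_bot.1 h6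
      exact isAlgebraic_algebraMap a
    exact trdeg_eq_zero_iff.2 h5
  rw [hdim] at h4
  have h5 : w = 0 := by exact_mod_cast h4
  omega

/-- the smooth hypersurfaces -/
def Hyp (D₁ : ℕ → ℕ) : Prop :=
  ∀ (K : Type) [Field K] [Algebra K ℂ] (n : ℕ) (S : Set (MvPolynomial (Fin (n + 1)) K)),
    1 ≤ n → (∀ p ∈ S, ∃ e, p.IsHomogeneous e) → ∀ E : Set ℕ, E.Infinite →
    ∃ (T : Set (MvPolynomial (Fin (n + 1)) K)) (d N D : ℕ) (m : Fin (N + 1) → Fin (n + 1) → ℕ)
      (Q : Fin (N * (2 * N + 1)) → MvPolynomial (Fin (N + 1)) K),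
      (∀ (Ω : Type) [Field Ω] [Algebra ℂ Ω] (x : Fin (n + 1) → Ω),
        (∀ p ∈ map (algebraMap K ℂ) '' T, aeval x p = 0) ↔
          ∀ p ∈ S, aeval x (map (algebraMap K ℂ) p) = 0) ∧
      D ∈ E ∧ D₁ N ≤ D ∧ (∀ t, (Q t).IsHomogeneous 2) ∧ SmoothOver (powerFormOver D Q) ∧
      (∀ x : Fin (n + 1) → K, (∀ p ∈ S, eval x p = 0) → eval (ver m x) (powerFormOver D Q) = 0) ∧
      Good n N d m (map (algebraMap K ℂ) '' T) (map (algebraMap K ℂ) (powerFormOver D Q))

theorem t_hyp : ∃ D₁ : ℕ → ℕ, Hyp D₁ := by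
  obtain ⟨D₁, H⟩ := Pool.Agent.N254.SQ.main5 Pool.Agent.N254.SQ.leaves4 Pool.Agent.N254.SQ.t_ext
  refine ⟨D₁, fun K _ _ n S hn hS E hE => ?_⟩
  have hchar : CharZero K := ((algebraMap K ℂ).charZero_iff (algebraMap K ℂ).injective).2 inferInstance
  obtain ⟨T, hT, hTS⟩ := reduce S
  obtain ⟨d, hd3, hd⟩ : ∃ d, 3 ≤ d ∧ ∀ p ∈ T, ∃ e ≤ d, p.IsHomogeneous e := by
    have h3 : ∀ p ∈ T, ∃ e, p.IsHomogeneous e := fun p hp => hS p (hT hp)
    choose! e he using h3
    refine ⟨max 3 (T.sup e), le_max_left _ _, fun p hp => ⟨e p, ?_, he p hp⟩⟩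
    exact le_trans (Finset.le_sup (f := e) hp) (le_max_right _ _)
  obtain ⟨N, m, hm, -, H2⟩ := H n d hn hd3
  obtain ⟨D, hD, hD2⟩ := hE.exists_gt (D₁ N)
  obtain ⟨Q, hQ, hsm, hv, hg⟩ := H2 D hD2.le K (algebraMap K ℂ)
    (T : Set (MvPolynomial (Fin (n + 1)) K)) (fun p hp => hd p hp)
  refine ⟨(T : Set (MvPolynomial (Fin (n + 1)) K)), d, N, D, m, Q, ?_, hD, hD2.le, hQ, ?_,
    fun x hx => hv x fun p hp => hx p (hT hp), hg⟩
  · intro Ω _ _ x
    constructor
    · intro hx p hp
      have h1 := hTS Ω ((algebraMap ℂ Ω).comp (algebraMap K ℂ)) x (fun p hp => by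
        rw [← aeval_map']
        exact hx _ ⟨p, hp, rfl⟩) p hp
      rwa [← aeval_map'] at h1
    · rintro hx _ ⟨p, hp, rfl⟩
      exact hx p (hT hp)
  · intro Ω _ τ y hy
    obtain ⟨j, hj⟩ := hsm Ω τ y hy
    rw [pderiv_map, eval_map] at hj
    exact ⟨j, hj⟩

end Pool.Agent.K9h36.LG
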