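import Pool.Agent.K9h36.LG.Alg

/-!
An irreducible closed set between a variety over a number field and its closure over the field of
rational numbers is the variety itself.
-/

set_option autoImplicit false

namespace Pool.Agent.K9h36.LG

open MvPolynomial
open Pool.Agent.W602.GT (SubVar GeneralType coords)
open Pool.Agent.N254.SQ (IsForm Eqs Component GenericPoint SmoothOver powerFormOver Gen Idl Good
  Mon ver pull reduce Fm eval₂_scale)

theorem ren {K : Type} [Field K] {Ω : Type} [Field Ω] [Algebra K Ω] {n : ℕ} {ι : Type}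
    (b : ι → Fin (n + 1)) (x : Fin (n + 1) → Ω) (g : MvPolynomial ι K) :
    aeval x (rename b g) = aeval (fun i => x (b i)) g := by
  rw [aeval_rename]
  rfl

/-- a nonzero value which is algebraic over independent elements cannot specialize to zero -/
theorem no_special {n : ℕ} {L L' : Type} [Field L] [Algebra ℂ L] [Field L'] [Algebra ℂ L']
    (u : Fin (n + 1) → L) (v : Fin (n + 1) → L') (B : Finset (Fin (n + 1)))
    (hsp : ∀ P : MvPolynomial (Fin (n + 1)) ℂ, aeval v P = 0 → aeval u P = 0)
    (hu : AlgebraicIndependent ℂ (fun i : B => u i))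
    (halg : ∀ i, IsAlgebraic (Algebra.adjoin ℂ (Set.range fun i : B => v i)) (v i))
    (F : MvPolynomial (Fin (n + 1)) ℂ) (hF : aeval u F = 0) : aeval v F = 0 := by
  have hall : ∀ F : MvPolynomial (Fin (n + 1)) ℂ,
      IsAlgebraic (Algebra.adjoin ℂ (Set.range fun i : B => v i)) (aeval v F) := by
    intro F
    induction F using MvPolynomial.induction_on with
    | C c =>
      rw [aeval_C, IsScalarTower.algebraMap_apply ℂ
        (Algebra.adjoin ℂ (Set.range fun i : B => v i)) L']
      exact isAlgebraic_algebraMap _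
    | add p q hp hq =>
      rw [map_add]
      exact hp.add hq
    | mul_X p j hp =>
      rw [map_mul, aeval_X]
      exact hp.mul (halg j)
  by_contra hne
  obtain ⟨q, hq0, hq⟩ := (hall F).exists_nonzero_coeff_and_aeval_eq_zero
    (mem_nonZeroDivisors_of_ne_zero hne)
  have hC : ∀ i, ∃ C₁ : MvPolynomial B ℂ, aeval (fun i : B => v i) C₁ = (q.coeff i : L') := by
    intro i
    have h1 : (q.coeff i : L') ∈ (aeval (R := ℂ) (fun i : B => v i)).range :=
      (Algebra.adjoin_range_eq_range_aeval ℂ (fun i : B => v i)).le (q.coeff i).2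
    exact h1
  choose C₁ hC₁ using hC
  have hW : aeval v (∑ i ∈ Finset.range (q.natDegree + 1),
      rename (fun i : B => (i : Fin (n + 1))) (C₁ i) * F ^ i) = 0 := by
    rw [← hq, Polynomial.aeval_eq_sum_range, map_sum]
    refine Finset.sum_congr rfl fun i _ => ?_
    rw [map_mul, map_pow, ren, hC₁, Algebra.smul_def]
    rfl
  have hW2 := hsp _ hW
  rw [map_sum, Finset.sum_eq_single_of_mem 0 (Finset.mem_range.2 (by omega))] at hW2
  · rw [pow_zero, mul_one, ren] at hW2
    have h1 := (algebraicIndependent_iff.1 hu) _ hW2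
    apply hq0
    apply Subtype.ext
    rw [← hC₁ 0, h1, map_zero]
    rfl
  · intro i _ hi
    rw [map_mul, map_pow, hF, zero_pow hi, mul_zero]

/-- a maximal independent set of coordinates -/
theorem max_indep {n : ℕ} {L : Type} [Field L] [Algebra ℂ L] (u : Fin (n + 1) → L) :
    ∃ B : Finset (Fin (n + 1)), AlgebraicIndependent ℂ (fun i : B => u i) ∧
      ∀ i, i ∉ B → ¬ AlgebraicIndependent ℂ (fun o : Option B => o.elim (u i) fun j => u j) := by
  classical
  obtain ⟨B, hB⟩ := (Set.toFinite {B : Finset (Fin (n + 1)) |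
    AlgebraicIndependent ℂ (fun i : B => u i)}).exists_maximal ⟨∅, by
      rw [Set.mem_setOf_eq]
      exact algebraicIndependent_empty_type⟩
  refine ⟨B, hB.prop, fun i hi hind => ?_⟩
  have h1 : AlgebraicIndependent ℂ (fun j : (insert i B : Finset (Fin (n + 1))) => u j) := by
    have h2 := hind.comp (fun j : (insert i B : Finset (Fin (n + 1))) =>
      if h : (j : Fin (n + 1)) ∈ B then some ⟨j, h⟩ else none) (by
        rintro ⟨j, hj⟩ ⟨j', hj'⟩ h
        simp only at h
        apply Subtype.ext
        by_cases h3 : j ∈ B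
        · by_cases h4 : j' ∈ B
          · rw [dif_pos h3, dif_pos h4, Option.some_inj, Subtype.mk.injEq] at h
            exact h
          · rw [dif_pos h3, dif_neg h4] at h
            exact absurd h (by simp)
        · by_cases h4 : j' ∈ B
          · rw [dif_neg h3, dif_pos h4] at h
            exact absurd h (by simp)
          · rw [Finset.mem_insert] at hj hj'
            exact (hj.resolve_right h3).trans (hj'.resolve_right h4).symm)
    have h5 : ((fun o : Option B => o.elim (u i) fun j => u j) ∘
        fun j : (insert i B : Finset (Fin (n + 1))) =>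
          if h : (j : Fin (n + 1)) ∈ B then some ⟨j, h⟩ else none) =
        fun j : (insert i B : Finset (Fin (n + 1))) => u j := by
      funext ⟨j, hj⟩
      simp only [Function.comp_apply]
      by_cases h3 : j ∈ B
      · rw [dif_pos h3]
        rfl
      · rw [dif_neg h3]
        rw [Finset.mem_insert] at hj
        rw [hj.resolve_right h3]
        rfl
    rwa [h5] at h2
  have h2 := hB.le_of_ge (y := insert i B) h1 (Finset.subset_insert i B)
  exact hi (h2 (Finset.mem_insert_self i B))

/-- the main step -/
theorem closure_eq {k : Type} [Field k] [Algebra k ℂ] (B : Type) [Field B] [CharZero B]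
    [IsAlgClosed B] [Algebra k B] [Algebra B ℂ] [IsScalarTower k B ℂ] [Algebra.IsAlgebraic ℚ B]
    {n : ℕ} {S : Set (MvPolynomial (Fin (n + 1)) k)} {L : Type} [Field L] [Algebra ℂ L] {w : ℕ}
    {y : Fin (n + 1) → L} [Algebra B L] [IsScalarTower B ℂ L] [CharZero L]
    (hS : ∀ p ∈ S, ∃ e, p.IsHomogeneous e) (hy : GenericPoint S L w y)
    {L' : Type} [Field L'] [Algebra ℂ L'] [CharZero L'] (x : Fin (n + 1) → L')
    (ha : ∀ F : MvPolynomial (Fin (n + 1)) ℚ, (∃ e, F.IsHomogeneous e) →
      aeval y F = 0 → aeval x F = 0)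
    (hb : ∀ F : MvPolynomial (Fin (n + 1)) ℂ, IsForm F → aeval x F = 0 → aeval y F = 0)
    (F : MvPolynomial (Fin (n + 1)) ℂ) (hF : IsForm F) (hFy : aeval y F = 0) : aeval x F = 0 := by
  obtain ⟨a, hya⟩ : ∃ a, y a ≠ 0 := by
    by_contra hcon
    push Not at hcon
    exact hy.sub.ne (funext hcon)
  have hxa : x a ≠ 0 := by
    intro h
    apply hya
    have h1 := hb (X a) ⟨1, isHomogeneous_X ℂ a⟩ (by rw [aeval_X, h])
    rwa [aeval_X] at h1
  have hb' : ∀ P : MvPolynomial (Fin (n + 1)) ℂ, aeval (fun j => x j / x a) P = 0 →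
      aeval (fun j => y j / y a) P = 0 := by
    intro P hP
    obtain ⟨e, G, hG, hG2⟩ := homog a P
    have h1 := hb G ⟨e, hG⟩ (by rw [hG2 L' x hxa, hP, mul_zero])
    rw [hG2 L y hya, mul_eq_zero] at h1
    exact h1.resolve_left (pow_ne_zero _ hya)
  have ha' : ∀ P : MvPolynomial (Fin (n + 1)) ℚ, aeval (fun j => y j / y a) P = 0 →
      aeval (fun j => x j / x a) P = 0 := by
    intro P hP
    obtain ⟨e, G, hG, hG2⟩ := homog a P
    have h1 := ha G ⟨e, hG⟩ (by rw [hG2 L y hya, hP, mul_zero])
    rw [hG2 L' x hxa, mul_eq_zero] at h1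
    exact h1.resolve_left (pow_ne_zero _ hxa)
  obtain ⟨I, hI, hImax⟩ := max_indep (fun j => y j / y a)
  have hIx : AlgebraicIndependent ℂ (fun i : I => x i / x a) := by
    rw [algebraicIndependent_iff] at hI ⊢
    intro P hP
    apply hI
    have h1 := hb' (rename (fun i : I => (i : Fin (n + 1))) P) (by rw [ren]; exact hP)
    rwa [ren] at h1
  have halg : ∀ i, IsAlgebraic (Algebra.adjoin ℂ (Set.range fun i : I => x i / x a))
      (x i / x a) := by
    intro i
    by_cases hi : i ∈ I
    · have h1 : x i / x a ∈ Algebra.adjoin ℂ (Set.range fun i : I => x i / x a) :=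
        Algebra.subset_adjoin ⟨⟨i, hi⟩, rfl⟩
      exact isAlgebraic_algebraMap
        (⟨_, h1⟩ : Algebra.adjoin ℂ (Set.range fun i : I => x i / x a))
    · by_contra htr
      apply hImax i hi
      have h1 : AlgebraicIndependent ℂ
          (fun o : Option I => o.elim (x i / x a) fun j => x j / x a) :=
        (hIx.option_iff_transcendental (x i / x a)).2 htr
      have h2 : AlgebraicIndependent ℚ
          (fun o : Option I => o.elim (x i / x a) fun j => x j / x a) :=
        h1.restrictScalars (algebraMap ℚ ℂ).injective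
      have hbx : (fun o : Option I => o.elim (x i / x a) fun j => x j / x a) =
          fun o : Option I => x (o.elim i fun j => (j : Fin (n + 1))) / x a := by
        funext o
        cases o <;> rfl
      have hby : (fun o : Option I => o.elim (y i / y a) fun j => y j / y a) =
          fun o : Option I => y (o.elim i fun j => (j : Fin (n + 1))) / y a := by
        funext o
        cases o <;> rfl
      rw [hby]
      apply indep B hS hy hya
      rw [hbx, algebraicIndependent_iff] at h2
      rw [algebraicIndependent_iff]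
      intro P hP
      apply h2
      have h3 := ha' (rename (fun o : Option I => (o.elim i fun j => (j : Fin (n + 1)))) P)
        (by rw [ren]; exact hP)
      rwa [ren] at h3
  obtain ⟨e, he⟩ := hF
  have hyy : y = y a • fun j => y j / y a := by
    funext j
    rw [Pi.smul_apply, smul_eq_mul, mul_div_cancel₀ _ hya]
  have hxx : x = x a • fun j => x j / x a := by
    funext j
    rw [Pi.smul_apply, smul_eq_mul, mul_div_cancel₀ _ hxa]
  have h1 : aeval (fun j => y j / y a) F = 0 := by
    have h2 : aeval y F = y a ^ e * aeval (fun j => y j / y a) F := by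
      conv_lhs => rw [hyy]
      exact scale he _ _
    rw [hFy] at h2
    exact (mul_eq_zero.1 h2.symm).resolve_left (pow_ne_zero _ hya)
  have h2 := no_special (fun j => y j / y a) (fun j => x j / x a) I hb' hI halg F h1
  rw [hxx, scale he, h2, mul_zero]

end Pool.Agent.K9h36.LG
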