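import Pool.Agent.K9h36.LG.Clo

/-!
The dimension of a closed subset is at most the dimension; closed sets in the hypersurface whose
components of large dimension are not of general type.
-/

set_option autoImplicit false

namespace Pool.Agent.K9h36.LG

open MvPolynomial
open Pool.Agent.W602.GT (SubVar GeneralType coords)
open Pool.Agent.N254.SQ (IsForm Eqs Component GenericPoint SmoothOver powerFormOver Gen Idl Good
  Mon ver pull pull_hom aeval_pull aeval_zero_of reduce Fm eval₂_scale t_comp t_versurj sub_ver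
  key_gen)

/-- the dimension is monotone -/
theorem dim_mono {n : ℕ} {L L' : Type} [Field L] [Algebra ℂ L] [Field L'] [Algebra ℂ L']
    {w w' : ℕ} {y : Fin (n + 1) → L} {y' : Fin (n + 1) → L'} (hy : Gen L w y) (hy' : Gen L' w' y')
    (h : ∀ F : MvPolynomial (Fin (n + 1)) ℂ, IsForm F → aeval y' F = 0 → aeval y F = 0) :
    w ≤ w' := by
  obtain ⟨a, hya⟩ : ∃ a, y a ≠ 0 := by
    by_contra hcon
    push Not at hcon
    exact hy.ne (funext hcon)
  have hxa : y' a ≠ 0 := by
    intro h0
    apply hya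
    have h1 := h (X a) ⟨1, isHomogeneous_X ℂ a⟩ (by rw [aeval_X, h0])
    rwa [aeval_X] at h1
  have hb' : ∀ P : MvPolynomial (Fin (n + 1)) ℂ, aeval (fun j => y' j / y' a) P = 0 →
      aeval (fun j => y j / y a) P = 0 := by
    intro P hP
    obtain ⟨e, G, hG, hG2⟩ := homog a P
    have h1 := h G ⟨e, hG⟩ (by rw [hG2 L' y' hxa, hP, mul_zero])
    rw [hG2 L y hya, mul_eq_zero] at h1
    exact h1.resolve_left (pow_ne_zero _ hya)
  obtain ⟨I, hI, hImax⟩ := max_indep (fun j => y j / y a)
  have hIx : AlgebraicIndependent ℂ (fun i : I => y' i / y' a) := by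
    rw [algebraicIndependent_iff] at hI ⊢
    intro P hP
    apply hI
    have h1 := hb' (rename (fun i : I => (i : Fin (n + 1))) P) (by rw [ren]; exact hP)
    rwa [ren] at h1
  have h1 := hIx.cardinalMk_le_trdeg
  rw [hy'.dim] at h1
  have halg : ∀ i, IsAlgebraic (Algebra.adjoin ℂ (Set.range fun i : I => y i / y a))
      (y i / y a) := by
    intro i
    by_cases hi : i ∈ I
    · have h1 : y i / y a ∈ Algebra.adjoin ℂ (Set.range fun i : I => y i / y a) :=
        Algebra.subset_adjoin ⟨⟨i, hi⟩, rfl⟩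
      exact isAlgebraic_algebraMap
        (⟨_, h1⟩ : Algebra.adjoin ℂ (Set.range fun i : I => y i / y a))
    · by_contra htr
      exact hImax i hi ((hI.option_iff_transcendental (y i / y a)).2 htr)
  have hbasis : IsTranscendenceBasis ℂ (fun i : I => y i / y a) := by
    rw [isTranscendenceBasis_iff_algebraicIndependent_isAlgebraic]
    refine ⟨hI, ⟨fun z => ?_⟩⟩
    have hz : z ∈ coords ℂ y := by
      rw [hy.gen]
      trivial
    refine IntermediateField.adjoin_induction ℂ (p := fun z _ =>
      IsAlgebraic (Algebra.adjoin ℂ (Set.range fun i : I => y i / y a)) z) ?_ ?_ ?_ ?_ ?_ hz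
    · rintro _ ⟨i, j, hj, rfl⟩
      have h2 : y i / y j = (y i / y a) * (y j / y a)⁻¹ := by
        field_simp
      rw [h2]
      exact (halg i).mul (halg j).inv
    · intro c
      rw [IsScalarTower.algebraMap_apply ℂ
        (Algebra.adjoin ℂ (Set.range fun i : I => y i / y a)) L]
      exact isAlgebraic_algebraMap _
    · intro _ _ _ _ h2 h3
      exact h2.add h3
    · intro _ _ h2
      exact h2.inv
    · intro _ _ _ _ h2 h3
      exact h2.mul h3
  have h2 := hbasis.cardinalMk_eq_trdeg
  rw [hy.dim] at h2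
  rw [h2] at h1
  exact_mod_cast h1

/-- if the closed set in `{A = 0}` given by `I` has no component of general type of dimension at
least `r`, then it does not contain the image of the variety `X` of general type, of dimension at
least `r` -/
theorem key {n N d : ℕ} {m : Fin (N + 1) → Fin (n + 1) → ℕ}
    {T : Set (MvPolynomial (Fin (n + 1)) ℂ)} {A : MvPolynomial (Fin (N + 1)) ℂ}
    (hg : Good n N d m T A) {L : Type} [Field L] [Algebra ℂ L] {w r : ℕ} {y : Fin (n + 1) → L}
    (hw : 1 ≤ w) (hr : r ≤ w)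
    (hy : SubVar (fun p : T => (p : MvPolynomial (Fin (n + 1)) ℂ)) L w y)
    (hgt : GeneralType ℂ L w)
    (hirr : ∀ (L' : Type) [Field L'] [Algebra ℂ L'] (x : Fin (n + 1) → L'),
      (∀ p ∈ T, aeval x p = 0) → (∀ F, IsForm F → aeval x F = 0 → aeval y F = 0) →
      ∀ F, IsForm F → aeval y F = 0 → aeval x F = 0)
    {I : MvPolynomial (Fin (N + 1)) ℂ → Prop} (hI : Idl I) (hIA : I A)
    (hno : ∀ (L' : Type) [Field L'] [Algebra ℂ L'] (w' : ℕ) (y' : Fin (N + 1) → L'), 1 ≤ w' →
      r ≤ w' → Gen L' w' y' → Component I y' → ¬ GeneralType ℂ L' w') :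
    ∃ G, IsForm G ∧ I G ∧ aeval y (pull m G) ≠ 0 := by
  by_contra hcon
  push Not at hcon
  have hvan : ∀ G, Fm G → I G → aeval (ver m y) G = 0 := by
    intro G hG hIG
    rw [← aeval_pull]
    exact hcon G hG hIG
  rcases t_comp N I hI L w (ver m y) (key_gen hg hy) hvan with ⟨H, hH, hH0, hHI⟩ |
    ⟨L', iF, iA, w', y', hgen, hw', hI', hsub, ⟨G, hG, hG0, hG1⟩, hcomp⟩
  · exact hno L w (ver m y) hw hr (key_gen hg hy) ⟨hvan, H, hH, hH0, hHI⟩ hgt
  · have hco : Component I y' := ⟨hI', hcomp⟩
    have hww : w ≤ w' := dim_mono (key_gen hg hy) hgen hsub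
    rcases hg.special L' w' y' hw' ⟨hgen.ne, fun p => by
        obtain ⟨p, hp⟩ := p
        rw [Set.mem_singleton_iff] at hp
        subst hp
        exact hI' p hg.homA hIA, hgen.gen, hgen.dim⟩ with h | ⟨x, c, hx, hc, hxS, hyx⟩
    · exact hno L' w' y' hw' (hr.trans hww) hgen hco h
    · have hxy : ∀ F, IsForm F → aeval x F = 0 → aeval y F = 0 := by
        rintro F ⟨e, he⟩ hFx
        obtain ⟨G', hG', hGF⟩ := t_versurj n N d m hg.mon e (F ^ d) (by
          rw [mul_comm]
          exact he.pow d)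
        have hGF' : pull m G' = F ^ d := hGF
        have h1 : aeval y' G' = 0 := by
          rw [hyx, aeval_zero_of ⟨e, hG'⟩ hc, ← aeval_pull, hGF', map_pow, hFx,
            zero_pow (by have := hg.deg; omega)]
        have h2 := hsub G' ⟨e, hG'⟩ h1
        rw [← aeval_pull, hGF', map_pow] at h2
        by_contra h3
        exact pow_ne_zero d h3 h2
      apply hG1
      rw [hyx, aeval_zero_of hG hc, ← aeval_pull]
      obtain ⟨e, he⟩ := hG
      exact hirr L' x hxS hxy (pull m G) ⟨d * e, pull_hom hg.mon he⟩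
        (by rw [aeval_pull]; exact hG0)

end Pool.Agent.K9h36.LG
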