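import Pool.Agent.K9h36.LG.Clo

/-!
From forms with complex coefficients to forms over the number field.
-/

set_option autoImplicit false

namespace Pool.Agent.K9h36.LG

open MvPolynomial
open Pool.Agent.W602.GT (SubVar GeneralType coords)
open Pool.Agent.N254.SQ (IsForm Eqs Component GenericPoint SmoothOver powerFormOver Gen Idl Good
  Mon ver pull reduce Fm eval₂_scale FiniteOff)
open scoped LinearAlgebra.Projectivization

/-- the norm of a polynomial -/
theorem galois_norm {k B : Type} [Field k] [Field B] [Algebra k B] [IsGalois k B] {σ : Type}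
    (g : MvPolynomial σ B) :
    ∃ (ι : Type) (_ : Fintype ι) (τ : ι → (B ≃ₐ[k] B)) (i₀ : ι) (R : MvPolynomial σ k),
      map (τ i₀ : B →+* B) g = g ∧
      map (algebraMap k B) R = ∏ i, map (τ i : B →+* B) g := by
  classical
  obtain ⟨F, hF⟩ : ∃ F : FiniteGaloisIntermediateField k B,
      F = FiniteGaloisIntermediateField.adjoin k (g.coeffs : Set B) := ⟨_, rfl⟩
  have hgF : ∀ α, coeff α g ∈ F.toIntermediateField := by
    intro α
    by_cases hα : α ∈ g.support
    · rw [hF]
      exact FiniteGaloisIntermediateField.subset_adjoin k (g.coeffs : Set B)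
        (Finset.mem_coe.2 (coeff_mem_coeffs α (mem_support_iff.1 hα)))
    · rw [notMem_support_iff.1 hα]
      exact zero_mem _
  have hdep : ∀ ρ ρ' : B ≃ₐ[k] B,
      AlgEquiv.restrictNormalHom F.toIntermediateField ρ =
        AlgEquiv.restrictNormalHom F.toIntermediateField ρ' →
      map (ρ : B →+* B) g = map (ρ' : B →+* B) g := by
    intro ρ ρ' h
    ext α
    rw [coeff_map, coeff_map]
    have h1 := AlgEquiv.restrictNormal_commutes ρ F.toIntermediateField ⟨_, hgF α⟩
    have h2 := AlgEquiv.restrictNormal_commutes ρ' F.toIntermediateField ⟨_, hgF α⟩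
    have h3 : AlgEquiv.restrictNormal ρ F.toIntermediateField =
      AlgEquiv.restrictNormal ρ' F.toIntermediateField := h
    rw [h3] at h1
    exact h1.symm.trans h2
  have hsurj := AlgEquiv.restrictNormalHom_surjective (F := k) (K₁ := F.toIntermediateField) B
  choose τ hτ using hsurj
  have hfix : ∀ ρ : B ≃ₐ[k] B, map (ρ : B →+* B)
      (∏ i : F.toIntermediateField ≃ₐ[k] F.toIntermediateField, map (τ i : B →+* B) g) =
      ∏ i : F.toIntermediateField ≃ₐ[k] F.toIntermediateField, map (τ i : B →+* B) g := by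
    intro ρ
    rw [map_prod]
    refine Fintype.prod_equiv
      (Equiv.mulLeft (AlgEquiv.restrictNormalHom F.toIntermediateField ρ)) _ _ fun i => ?_
    rw [map_map]
    have h1 : (ρ : B →+* B).comp (τ i : B →+* B) = ((ρ * τ i : B ≃ₐ[k] B) : B →+* B) := by
      ext z
      rfl
    rw [h1]
    apply hdep
    rw [map_mul, hτ, hτ]
    rfl
  have hR : ∃ R : MvPolynomial σ k, map (algebraMap k B) R =
      ∏ i : F.toIntermediateField ≃ₐ[k] F.toIntermediateField, map (τ i : B →+* B) g := by
    have h1 : ((∏ i : F.toIntermediateField ≃ₐ[k] F.toIntermediateField,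
        map (τ i : B →+* B) g).coeffs : Set B) ⊆ Set.range (algebraMap k B) := by
      intro z hz
      rw [Finset.mem_coe, mem_coeffs_iff] at hz
      obtain ⟨α, -, rfl⟩ := hz
      rw [InfiniteGalois.mem_range_algebraMap_iff_fixed]
      intro ρ
      have h2 := congrArg (coeff α) (hfix ρ)
      rw [coeff_map] at h2
      exact h2
    exact mem_range_map_iff_coeffs_subset.2 h1
  obtain ⟨R, hR⟩ := hR
  refine ⟨_, inferInstance, τ, 1, R, ?_, hR⟩
  have h1 : map (τ 1 : B →+* B) g = map ((1 : B ≃ₐ[k] B) : B →+* B) g := by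
    apply hdep
    rw [hτ, map_one]
  rw [h1]
  exact map_id g

/-- complex algebraic numbers come from the algebraic closure -/
theorem mem_closure {B : Type} [Field B] [CharZero B] [IsAlgClosed B] [Algebra B ℂ] {z : ℂ}
    (hz : IsAlgebraic ℚ z) : ∃ b : B, algebraMap B ℂ b = z := by
  have h1 : IsAlgebraic B z := hz.extendScalars (algebraMap ℚ B).injective
  exact minpoly.mem_range_of_degree_eq_one B z
    (IsAlgClosed.degree_eq_one_of_irreducible B (minpoly.irreducible h1.isIntegral))

section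

variable {k : Type} [Field k] [Algebra k ℂ] {n : ℕ}
  {S : Set (MvPolynomial (Fin (n + 1)) k)} {L : Type} [Field L] [Algebra ℂ L] {w : ℕ}
  {y : Fin (n + 1) → L}

theorem emb_zero {B : Type} [Field B] [Algebra k B] [Algebra B ℂ] [IsScalarTower k B ℂ]
    {x : Fin (n + 1) → B} (hx : ∀ p ∈ S, aeval x p = 0) :
    ∀ p ∈ S, aeval (fun j => algebraMap B ℂ (x j)) p = 0 := by
  intro p hp
  have h1 : aeval (fun j => algebraMap B ℂ (x j)) p = algebraMap B ℂ (aeval x p) := by
    exact MvPolynomial.aeval_algebraMap_apply ℂ x p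
  rw [h1, hx p hp, map_zero]

theorem zero_emb {B : Type} [Field B] [Algebra k B] [Algebra B ℂ] [IsScalarTower k B ℂ]
    {x : Fin (n + 1) → B} (hx : ∀ p ∈ map (algebraMap k ℂ) '' S,
      eval (fun j => algebraMap B ℂ (x j)) p = 0) : ∀ p ∈ S, aeval x p = 0 := by
  intro p hp
  have h1 : aeval (fun j => algebraMap B ℂ (x j)) p = algebraMap B ℂ (aeval x p) := by
    exact MvPolynomial.aeval_algebraMap_apply ℂ x p
  have h2 := hx _ ⟨p, hp, rfl⟩
  rw [eval_map] at h2
  rw [aeval_def, h2] at h1
  exact (algebraMap B ℂ).injective (by rw [← h1, map_zero])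

/-- a form with algebraic coefficients -/
theorem to_algebraic (B : Type) [Field B] [CharZero B] [IsAlgClosed B] [Algebra k B]
    [Algebra B ℂ] [IsScalarTower k B ℂ]
    {G : MvPolynomial (Fin (n + 1)) ℂ} (hG : IsForm G) (hGy : aeval y G ≠ 0)
    (hfin : FiniteOff (map (algebraMap k ℂ) '' S) G) :
    ∃ (e : ℕ) (g : MvPolynomial (Fin (n + 1)) B), g.IsHomogeneous e ∧
      aeval y (map (algebraMap B ℂ) g) ≠ 0 ∧
      FiniteOff (map (algebraMap k ℂ) '' S) (map (algebraMap B ℂ) g) := by
  obtain ⟨e, he⟩ := hG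
  obtain ⟨r, b, g, hg1, hg2, hg3⟩ := desc {x : Fin (n + 1) → B | (∀ p ∈ S, aeval x p = 0) ∧
    eval (fun j => algebraMap B ℂ (x j)) G = 0} G (fun x hx => hx.2)
  obtain ⟨i, hi⟩ : ∃ i, aeval y (map (algebraMap B ℂ) (g i)) ≠ 0 := by
    by_contra hcon
    push Not at hcon
    apply hGy
    rw [hg3, map_sum]
    exact Finset.sum_eq_zero fun i _ => by rw [map_mul, hcon i, mul_zero]
  refine ⟨e, g i, hg1 i e he, hi, fun L₀ hL₀ => (hfin L₀ hL₀).subset ?_⟩
  rintro P ⟨x, hx, hP, hxL, hxS, hxg⟩
  refine ⟨x, hx, hP, hxL, hxS, fun h0 => hxg ?_⟩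
  have hxa : ∀ j, ∃ b : B, algebraMap B ℂ b = x j := fun j => mem_closure (by
    have h1 := Algebra.IsAlgebraic.isAlgebraic (R := ℚ) (⟨x j, hxL j⟩ : L₀)
    have h2 := h1.algHom L₀.val
    exact h2)
  choose x' hx' using hxa
  have hxx : x = fun j => algebraMap B ℂ (x' j) := funext fun j => (hx' j).symm
  rw [hxx, eval_emb, hg2 i x' ⟨zero_emb (k := k) (S := S) (by rw [← hxx]; exact hxS),
    by rw [← hxx]; exact h0⟩, map_zero]

/-- a form over the number field -/
theorem to_field (B : Type) [Field B] [CharZero B] [IsAlgClosed B] [Algebra k B] [IsGalois k B]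
    [Algebra B ℂ] [IsScalarTower k B ℂ] [Algebra B L] [IsScalarTower B ℂ L]
    (hy : GenericPoint S L w y)
    {G : MvPolynomial (Fin (n + 1)) ℂ} (hG : IsForm G) (hGy : aeval y G ≠ 0)
    (hfin : FiniteOff (map (algebraMap k ℂ) '' S) G) :
    ∃ R : MvPolynomial (Fin (n + 1)) k, (∃ e, R.IsHomogeneous e) ∧
      aeval y (map (algebraMap k ℂ) R) ≠ 0 ∧
      FiniteOff (map (algebraMap k ℂ) '' S) (map (algebraMap k ℂ) R) := by
  obtain ⟨e, g, hg, hgy, hgfin⟩ := to_algebraic B hG hGy hfin
  obtain ⟨ι, _, τ, i₀, R, hi₀, hR⟩ := galois_norm (k := k) g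
  have hRC : map (algebraMap k ℂ) R =
      ∏ i, map (algebraMap B ℂ) (map (τ i : B →+* B) g) := by
    rw [← map_prod, ← hR, map_map, ← IsScalarTower.algebraMap_eq]
  have hRhom : ∃ e, R.IsHomogeneous e := by
    refine ⟨∑ i : ι, e, IsHomogeneous.of_map (f := algebraMap k B) (algebraMap k B).injective ?_⟩
    rw [hR]
    exact IsHomogeneous.prod _ _ _ fun i _ => hg.map _
  refine ⟨R, hRhom, ?_, fun L₀ hL₀ => (hgfin L₀ hL₀).subset ?_⟩
  · rw [hRC, map_prod, Finset.prod_ne_zero_iff]
    intro i _ h0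
    have h1 := hy.all _ ⟨e, (hg.map (τ i : B →+* B)).map (algebraMap B ℂ)⟩ h0
    apply hgy
    have h2 : aeval y g = 0 := by
      apply at_generic B hy
      intro x hx
      have hx' : ∀ p ∈ S, aeval (fun j => τ i (x j)) p = 0 := by
        intro p hp
        have h3 : aeval (fun j => τ i (x j)) p = τ i (aeval x p) := by
          have h4 := congrArg (fun f => f p) (MvPolynomial.comp_aeval x (τ i).toAlgHom)
          exact h4.symm
        rw [h3, hx p hp, map_zero]
      have h4 := h1 _ (emb_zero hx')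
      rw [eval_emb] at h4
      have h5 : eval (fun j => τ i (x j)) (map (τ i : B →+* B) g) = 0 :=
        (algebraMap B ℂ).injective (by rw [h4, map_zero])
      rw [eval_map] at h5
      have h6 : eval₂ (τ i : B →+* B) (fun j => τ i (x j)) g = (τ i : B →+* B) (eval x g) :=
        (eval₂_comp (τ i : B →+* B) x g).symm
      rw [h6] at h5
      exact (τ i : B →+* B).injective (by rw [h5, map_zero])
    rw [aeval_def, eval₂_map, ← IsScalarTower.algebraMap_eq]
    exact h2
  · rintro P ⟨x, hx, hP, hxL, hxS, hxR⟩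
    refine ⟨x, hx, hP, hxL, hxS, fun h0 => hxR ?_⟩
    rw [hRC, map_prod]
    exact Finset.prod_eq_zero (Finset.mem_univ i₀) (by rw [hi₀]; exact h0)

end

end Pool.Agent.K9h36.LG
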