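import Pool.Agent.K9h36.LG.Gal

/-!
Points over number fields, and over the subfields of `ℂ` of finite degree.
-/

set_option autoImplicit false

namespace Pool.Agent.K9h36.LG

open MvPolynomial
open Pool.Agent.N254.SQ (IsForm Eqs FiniteOff eval₂_scale)
open scoped LinearAlgebra.Projectivization

theorem rep_zero {K L : Type} [Field K] [Field L] [Algebra K L] {n : ℕ}
    {p : MvPolynomial (Fin (n + 1)) K} (hp : ∃ e, p.IsHomogeneous e)
    (x : Fin (n + 1) → L) (hx : x ≠ 0) :
    aeval (Projectivization.mk L x hx).rep p = 0 ↔ aeval x p = 0 := by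
  obtain ⟨a, ha⟩ := Projectivization.exists_smul_eq_mk_rep L x hx
  obtain ⟨e, he⟩ := hp
  rw [← ha]
  have h1 : a • x = (a : L) • x := rfl
  rw [h1, scale he, mul_eq_zero]
  constructor
  · rintro (h | h)
    · exact absurd h (pow_ne_zero _ a.ne_zero)
    · exact h
  · exact Or.inr

section

variable {K F : Type} [Field K] [Field F] (φ : K →+* F) {n : ℕ}

theorem comp_ne {x : Fin (n + 1) → K} (hx : x ≠ 0) : (fun j => φ (x j)) ≠ 0 := by
  intro h
  apply hx
  funext j
  have h1 := congrFun h j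
  simp only [Pi.zero_apply, map_eq_zero] at h1
  exact h1

/-- the map of the projective spaces -/
noncomputable def pmap (P : ℙ K (Fin (n + 1) → K)) : ℙ F (Fin (n + 1) → F) :=
  Projectivization.mk F (fun j => φ (P.rep j)) (comp_ne φ P.rep_nonzero)

theorem pmap_inj : Function.Injective (pmap φ : ℙ K (Fin (n + 1) → K) → ℙ F (Fin (n + 1) → F)) := by
  intro P P' h
  unfold pmap at h
  rw [Projectivization.mk_eq_mk_iff'] at h
  obtain ⟨c, hc⟩ := h
  rw [← P.mk_rep, ← P'.mk_rep, Projectivization.mk_eq_mk_iff']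
  obtain ⟨a, ha⟩ : ∃ a, P'.rep a ≠ 0 := by
    by_contra hcon
    push Not at hcon
    exact P'.rep_nonzero (funext hcon)
  refine ⟨P.rep a / P'.rep a, funext fun j => ?_⟩
  have h1 := congrFun hc a
  have h2 := congrFun hc j
  simp only [Pi.smul_apply, smul_eq_mul] at h1 h2
  apply φ.injective
  rw [Pi.smul_apply, smul_eq_mul, map_mul, map_div₀, ← h1, ← h2,
    mul_div_cancel_right₀ _ ((map_ne_zero φ).2 ha)]

theorem pmap_mk (x : Fin (n + 1) → K) (hx : x ≠ 0) :
    pmap φ (Projectivization.mk K x hx) =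
      Projectivization.mk F (fun j => φ (x j)) (comp_ne φ hx) := by
  obtain ⟨a, ha⟩ := Projectivization.exists_smul_eq_mk_rep K x hx
  unfold pmap
  rw [Projectivization.mk_eq_mk_iff']
  refine ⟨φ a, funext fun j => ?_⟩
  rw [← ha, Pi.smul_apply, Pi.smul_apply, smul_eq_mul]
  exact (map_mul φ _ _).symm

end

/-- from the subfields of `ℂ` to all number fields -/
theorem to_abstract {k : Type} [Field k] [NumberField k] [Algebra k ℂ] {n : ℕ}
    {S : Set (MvPolynomial (Fin (n + 1)) k)} {R : MvPolynomial (Fin (n + 1)) k}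
    (h : FiniteOff (map (algebraMap k ℂ) '' S) (map (algebraMap k ℂ) R))
    (K : Type) [Field K] [NumberField K] [Algebra k K] :
    {P : ℙ K (Fin (n + 1) → K) | (∀ p ∈ S, aeval P.rep p = 0) ∧ aeval P.rep R ≠ 0}.Finite := by
  have : IsScalarTower ℚ k K := inferInstance
  have hKalg : Algebra.IsAlgebraic k K := Algebra.IsAlgebraic.tower_top (K := ℚ) k
  let φ : K →ₐ[k] ℂ := IsAlgClosed.lift
  let φ' : K →ₐ[ℚ] ℂ := φ.restrictScalars ℚ
  have hfin : FiniteDimensional ℚ φ'.fieldRange :=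
    (AlgEquiv.ofInjectiveField φ').toLinearEquiv.finiteDimensional
  refine Set.Finite.of_finite_image ((h φ'.fieldRange hfin).subset ?_)
    ((pmap_inj (φ : K →+* ℂ)).injOn)
  rintro _ ⟨P, ⟨hPS, hPR⟩, rfl⟩
  have hval : ∀ p : MvPolynomial (Fin (n + 1)) k,
      eval (fun j => φ (P.rep j)) (map (algebraMap k ℂ) p) = φ (aeval P.rep p) := by
    intro p
    have h4 := congrArg (fun f => f p) (MvPolynomial.comp_aeval P.rep φ)
    rw [eval_map]
    exact h4.symm
  refine ⟨fun j => φ (P.rep j), comp_ne (φ : K →+* ℂ) P.rep_nonzero, rfl,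
    fun j => ⟨P.rep j, rfl⟩, ?_, ?_⟩
  · rintro _ ⟨p, hp, rfl⟩
    rw [hval, hPS p hp, map_zero]
  · rw [hval]
    exact (map_ne_zero φ).2 hPR

/-- from all number fields to the subfields of `ℂ` -/
theorem of_abstract {k : IntermediateField ℚ ℂ} [FiniteDimensional ℚ k] {n : ℕ}
    {S : Set (MvPolynomial (Fin (n + 1)) k)} (hS : ∀ p ∈ S, ∃ e, p.IsHomogeneous e)
    {R : MvPolynomial (Fin (n + 1)) k} (hR : ∃ e, R.IsHomogeneous e)
    (h : ∀ (K : Type) [Field K] [NumberField K] [Algebra k K],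
      {P : ℙ K (Fin (n + 1) → K) | (∀ p ∈ S, aeval P.rep p = 0) ∧ aeval P.rep R ≠ 0}.Finite) :
    FiniteOff (map (algebraMap k ℂ) '' S) (map (algebraMap k ℂ) R) := by
  intro L₀ hL₀
  obtain ⟨K, hK⟩ : ∃ K : IntermediateField ℚ ℂ, K = k ⊔ L₀ := ⟨_, rfl⟩
  have hkK : k ≤ K := by
    rw [hK]
    exact le_sup_left
  have hLK : L₀ ≤ K := by
    rw [hK]
    exact le_sup_right
  have hfin : FiniteDimensional ℚ K := by
    rw [hK]
    infer_instance
  have hnf : NumberField K := ⟨⟩
  letI : Algebra k K := (IntermediateField.inclusion hkK).toRingHom.toAlgebra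
  have h1 := h K
  refine ((h1.image (pmap (algebraMap K ℂ))).subset ?_)
  rintro P ⟨x, hx, hP, hxL, hxS, hxR⟩
  obtain ⟨x', hx'⟩ : ∃ x' : Fin (n + 1) → K, x' = fun j => ⟨x j, hLK (hxL j)⟩ := ⟨_, rfl⟩
  have hxx : (fun j => algebraMap K ℂ (x' j)) = x := by
    rw [hx']
    rfl
  have hx0 : x' ≠ 0 := by
    intro h0
    apply hx
    rw [← hxx, h0]
    funext j
    exact map_zero _
  have hval : ∀ p : MvPolynomial (Fin (n + 1)) k,
      eval x (map (algebraMap k ℂ) p) = algebraMap K ℂ (aeval x' p) := by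
    intro p
    rw [← hxx, eval_map, aeval_def]
    exact (eval₂_comp_left (algebraMap K ℂ) (algebraMap k K) x' p).symm
  refine ⟨Projectivization.mk K x' hx0, ⟨fun p hp => ?_, fun h0 => hxR ?_⟩, ?_⟩
  · rw [rep_zero (hS p hp)]
    apply (algebraMap K ℂ).injective
    rw [← hval, hxS _ ⟨p, hp, rfl⟩, map_zero]
  · rw [rep_zero hR] at h0
    rw [hval, h0, map_zero]
  · rw [pmap_mk, hP]
    congr 1

end Pool.Agent.K9h36.LG
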