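import Pool.Agent.N254.SQ.Fin2
import Pool.Agent.N254.SQ.LocDefs2

/-!
Hypersurfaces `∑ t, Q_t(y) (y_0 + t y_1 + ⋯ + t ^ N y_N) ^ D = 0` through the Veronese image of a
projective variety `X = V(F)`, of which only the points of `v(X)` have `2 N + 1` disjoint vanishing
subsums. Existence and geometric properties.
-/

set_option autoImplicit false

namespace Pool.Agent.K9h36.LG

open MvPolynomial
open Pool.Agent.W602.GT (SubVar GeneralType val coords)
open Pool.Agent.N254.SQ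

/-- `y` is a vector of homogeneous coordinates of a point of `v(X)`, `X = V(F)` -/
def OnVer {K : Type} [Field K] {n N s : ℕ} (m : Fin (N + 1) → Fin (n + 1) → ℕ)
    (F : Fin s → MvPolynomial (Fin (n + 1)) K) {Ω : Type} [Field Ω] [Algebra K Ω]
    (y : Fin (N + 1) → Ω) : Prop :=
  ∃ (x : Fin (n + 1) → Ω) (c : Ω), x ≠ 0 ∧ c ≠ 0 ∧ (∀ k, aeval x (F k) = 0) ∧ y = c • ver m x

/-- outside of `v(X)` there are no `2 N + 1` disjoint vanishing subsums -/
def Blk {K : Type} [Field K] {n N s M : ℕ} (m : Fin (N + 1) → Fin (n + 1) → ℕ)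
    (F : Fin s → MvPolynomial (Fin (n + 1)) K) (D : ℕ)
    (Q : Fin M → MvPolynomial (Fin (N + 1)) K) : Prop :=
  ∀ (Ω : Type) [Field Ω] [Algebra K Ω] (y : Fin (N + 1) → Ω) (𝓑 : Finset (Finset (Fin M))),
    y ≠ 0 → (∀ B ∈ 𝓑, B.Nonempty) → (∀ B ∈ 𝓑, ∀ B' ∈ 𝓑, B ≠ B' → Disjoint B B') →
    2 * N + 1 ≤ 𝓑.card →
    (∀ B ∈ 𝓑, ∑ t ∈ B, aeval y (Q t) * (∑ j : Fin (N + 1), ((t : ℕ) : Ω) ^ (j : ℕ) * y j) ^ D = 0) →
    OnVer m F y

theorem aeval_lin {K : Type} [Field K] {N t : ℕ} {Ω : Type} [Field Ω] [Algebra K Ω]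
    (y : Fin (N + 1) → Ω) :
    aeval y (lin K N t) = ∑ j : Fin (N + 1), (t : Ω) ^ (j : ℕ) * y j := by
  unfold lin
  rw [map_sum]
  refine Finset.sum_congr rfl fun j _ => ?_
  rw [map_mul, aeval_C, aeval_X, map_pow, map_natCast]

theorem powerFormOver_hyp {K : Type} [Field K] {N L M D : ℕ}
    (q : Fin M → MvPolynomial (Fin (N + 1)) K) (c : Fin L × Fin M → K) :
    powerFormOver D (fun t => ∑ i, C (c (t, i)) * q i) = hyp q D c := rfl

theorem exists_blk (n d : ℕ) (hn : 1 ≤ n) (hd : 3 ≤ d) :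
    ∃ (N : ℕ) (m : Fin (N + 1) → Fin (n + 1) → ℕ), Mon n N d m ∧ 2 * n < N ∧
      ∀ D, 1 ≤ D → ∀ (K : Type) [Field K] [CharZero K] (s : ℕ)
        (F : Fin s → MvPolynomial (Fin (n + 1)) K) (g : Fin s → ℕ),
        (∀ k, (F k).IsHomogeneous (g k)) → (∀ k, g k ≤ d) →
        ∃ (M : ℕ) (q : Fin M → MvPolynomial (Fin (N + 1)) K)
          (Δ : MvPolynomial (Fin (N * (2 * N + 1)) × Fin M) K),
          (∀ i, (q i).IsHomogeneous 2) ∧
          (∀ (Ω : Type) [Field Ω] [Algebra K Ω] (y : Fin (N + 1) → Ω), y ≠ 0 →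
            ((∀ i, aeval y (q i) = 0) ↔ OnVer m F y)) ∧ Δ ≠ 0 ∧ ∀ c, eval c Δ ≠ 0 →
            SmoothOver (powerFormOver D (fun t => ∑ i, C (c (t, i)) * q i)) ∧
            (∀ (Ω : Type) [Field Ω] [Algebra K Ω] (x : Fin (n + 1) → Ω),
              (∀ k, aeval x (F k) = 0) →
              aeval (ver m x) (powerFormOver D (fun t => ∑ i, C (c (t, i)) * q i)) = 0) ∧
            Blk m F D (fun t => ∑ i, C (c (t, i)) * q i) := by
  classical
  have H := leaves4
  obtain ⟨N, m, hm, hN⟩ := H.num n d hn hd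
  refine ⟨N, m, hm, hN, ?_⟩
  have hN1 : 1 ≤ N := by omega
  have hd1 : 1 ≤ d := by omega
  intro D hD K _ _ s F g hF hg
  obtain ⟨ι, _, q', hq2', hqv', hqr'⟩ := H.ver K n N d m hm hd1 (Fin s) F g hF hg
  obtain ⟨M, hM⟩ : ∃ M, M = Fintype.card ι := ⟨_, rfl⟩
  obtain e : Fin M ≃ ι := by rw [hM]; exact (Fintype.equivFin ι).symm
  obtain ⟨q, hq⟩ : ∃ q : Fin M → MvPolynomial (Fin (N + 1)) K, ∀ i, q i = q' (e i) :=
    ⟨_, fun _ => rfl⟩
  have hq2 : ∀ i, (q i).IsHomogeneous 2 := fun i => by rw [hq]; exact hq2' _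
  have hqv : ∀ (Ω : Type) [Field Ω] [Algebra K Ω] (x : Fin (n + 1) → Ω),
      (∀ k, aeval x (F k) = 0) → ∀ i, aeval (ver m x) (q i) = 0 := by
    intro Ω _ _ x hx i
    rw [hq]
    exact hqv' Ω x hx _
  have hall : ∀ (Ω : Type) [Field Ω] [Algebra K Ω] (y : Fin (N + 1) → Ω),
      (∀ i, aeval y (q i) = 0) → ∀ i, aeval y (q' i) = 0 := by
    intro Ω _ _ y hy i
    have h1 := hy (e.symm i)
    rw [hq, Equiv.apply_symm_apply] at h1
    exact h1
  obtain ⟨L, hL⟩ : ∃ L, L = N * (2 * N + 1) := ⟨_, rfl⟩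
  have hL2 : 2 * N + 1 ≤ L := by rw [hL]; exact Nat.le_mul_of_pos_left _ hN1
  rw [← hL]
  obtain ⟨Δ₁, hΔ₁, hB1⟩ := H.blocks K N L D 2 (Fin M) q hq2
  obtain ⟨Δ₂, hΔ₂, hS1⟩ := H.smooth K N L D 2 n (Fin M) q hq2 hD hL2 (by
    intro Ω _ _ x hx hxq
    have h1 := (hqr' Ω x hx (hall Ω x hxq)).1
    have h2 : (Matrix.of fun (i : ι) (j : Fin (N + 1)) => (aeval x (pderiv j (q' i)) : Ω)).rank =
        (Matrix.of fun (i : Fin M) (j : Fin (N + 1)) => (aeval x (pderiv j (q i)) : Ω)).rank := by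
      rw [← Matrix.rank_submatrix _ e (Equiv.refl _)]
      congr 1
      ext i j
      simp only [Matrix.submatrix_apply, Matrix.of_apply, Equiv.refl_apply, hq]
    rw [h2] at h1
    omega) (by
    intro Ω _ _ y a hya hyq
    have hy0 : y ≠ 0 := by
      intro h
      rw [h] at hya
      exact zero_ne_one hya
    obtain ⟨-, x, a', b, hxa, hyb, hyc, -⟩ := hqr' Ω y hy0 (hall Ω y hyq)
    refine td_scale H.td x a' hxa (ver m x) y (fun b => ?_) a (fun c => ?_)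
    · refine ⟨∏ j, X j ^ m b j, ?_⟩
      rw [map_prod]
      unfold ver
      apply Finset.prod_congr rfl
      intro j _
      rw [map_pow, aeval_X]
    · have h1 := hyc a
      rw [hya] at h1
      have h2 : ver m x a ≠ 0 := by
        intro h3
        rw [h3, mul_zero] at h1
        exact one_ne_zero h1
      rw [hyc c]
      rw [eq_div_iff h2]
      linear_combination (-ver m x c) * h1)
  have haev : ∀ (Ω : Type) [Field Ω] (σ : K →+* Ω) (c : Fin L × Fin M → K)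
      (Δ : MvPolynomial (Fin L × Fin M) K),
      eval c Δ ≠ 0 → eval₂ σ (fun p => σ (c p)) Δ ≠ 0 := by
    intro Ω _ σ c Δ h h2
    apply h
    apply σ.injective
    rw [map_zero, ← h2]
    exact (eval₂_comp (f := σ) (g := c) Δ).trans rfl
  have hzero : ∀ (Ω : Type) [Field Ω] [Algebra K Ω] (y : Fin (N + 1) → Ω), y ≠ 0 →
      ((∀ i, aeval y (q i) = 0) ↔ OnVer m F y) := by
    intro Ω _ _ y hy
    constructor
    · intro key
      obtain ⟨-, x, a, b, hxa, hyb, hyc, hFx⟩ := hqr' Ω y hy (hall Ω y key)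
      refine ⟨x, y b, ?_, hyb, hFx, funext fun c => hyc c⟩
      intro h
      rw [h] at hxa
      exact zero_ne_one hxa
    · rintro ⟨x, c, -, -, hFx, rfl⟩ i
      have h1 := hqv Ω x hFx i
      have h2 : eval₂ (algebraMap K Ω) (c • ver m x) (q i) =
          c ^ 2 * eval₂ (algebraMap K Ω) (ver m x) (q i) := eval₂_scale _ (hq2 i) _ _
      change eval₂ (algebraMap K Ω) (c • ver m x) (q i) = 0
      rw [h2]
      change c ^ 2 * aeval (ver m x) (q i) = 0
      rw [h1, mul_zero]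
  refine ⟨M, q, Δ₁ * Δ₂, hq2, hzero, mul_ne_zero hΔ₁ hΔ₂, fun c hc => ?_⟩
  rw [map_mul] at hc
  have hc1 := left_ne_zero_of_mul hc
  have hc2 := right_ne_zero_of_mul hc
  refine ⟨?_, ?_, ?_⟩
  · intro Ω _ σ x hx
    let _ : Algebra K Ω := σ.toAlgebra
    obtain ⟨j, hj⟩ := hS1 Ω (fun p => σ (c p)) (haev Ω σ c Δ₂ hc2) x hx
    refine ⟨j, ?_⟩
    rw [powerFormOver_hyp, ← eval_map, ← pderiv_map, map_hyp]
    exact hj
  · intro Ω _ _ x hx
    have h1 := hqv Ω x hx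
    rw [powerFormOver_hyp, hyp, map_sum]
    refine Finset.sum_eq_zero fun t _ => ?_
    rw [map_mul, map_sum, Finset.sum_eq_zero, zero_mul]
    intro i _
    rw [map_mul, h1, mul_zero]
  · intro Ω _ _ y 𝓑 hy hne hdis hcard hvan
    have key := hB1 Ω (fun p => algebraMap K Ω (c p)) (haev Ω (algebraMap K Ω) c Δ₁ hc1) 𝓑 hne
      hdis hcard y hy (by
        intro B hB
        rw [← hvan B hB]
        refine Finset.sum_congr rfl fun t _ => ?_
        rw [map_sum, aeval_lin]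
        congr 1
        refine Finset.sum_congr rfl fun i _ => ?_
        rw [map_mul, aeval_C])
    exact (hzero Ω y hy).1 key

end Pool.Agent.K9h36.LG
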