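import Pool.Agent.K9h36.LG.SpA

/-!
Consequences: subvarieties, entire curves, lines.
-/

set_option autoImplicit false

namespace Pool.Agent.K9h36.LG

open MvPolynomial
open Pool.Agent.W602.GT (SubVar GeneralType val coords)
open Pool.Agent.N254.SQ

theorem eval₂_form {K : Type} [Field K] {N M D : ℕ} (Q : Fin M → MvPolynomial (Fin (N + 1)) K)
    (σ : K →+* ℂ) {Ω : Type} [Field Ω] (τ : ℂ →+* Ω) (y : Fin (N + 1) → Ω) :
    eval₂ τ y (map σ (powerFormOver D Q)) = ∑ t : Fin M, eval₂ τ y (map σ (Q t)) *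
      eval₂ τ y (lin ℂ N t) ^ D := by
  have h : powerFormOver D Q = ∑ t : Fin M, Q t * lin K N t ^ D := rfl
  rw [h, map_sum, eval₂_sum]
  refine Finset.sum_congr rfl fun t _ => ?_
  rw [map_mul, map_pow, map_lin, eval₂_mul, eval₂_pow]

/-- the property of the subsums for a point over an extension of `ℂ` -/
theorem Blk.use {K : Type} [Field K] {n N s : ℕ} (hN : 1 ≤ N)
    {m : Fin (N + 1) → Fin (n + 1) → ℕ} {F : Fin s → MvPolynomial (Fin (n + 1)) K} {D : ℕ}
    {Q : Fin (N * (2 * N + 1)) → MvPolynomial (Fin (N + 1)) K} (h : Blk m F D Q) (σ : K →+* ℂ)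
    {Ω : Type} [Field Ω] (τ : ℂ →+* Ω) {y : Fin (N + 1) → Ω} (hy : y ≠ 0)
    {𝓑 : Finset (Finset (Fin (N * (2 * N + 1))))} (hne : ∀ B ∈ 𝓑, B.Nonempty)
    (hdis : ∀ B ∈ 𝓑, ∀ B' ∈ 𝓑, B ≠ B' → Disjoint B B')
    (hcard : N * (2 * N + 1) ≤ N * 𝓑.card)
    (hvan : ∀ B ∈ 𝓑, ∑ t ∈ B, eval₂ τ y (map σ (Q t)) * eval₂ τ y (lin ℂ N t) ^ D = 0) :
    ∃ (x : Fin (n + 1) → Ω) (c : Ω), x ≠ 0 ∧ c ≠ 0 ∧ (∀ k, eval₂ τ x (map σ (F k)) = 0) ∧
      y = c • ver m x := by
  let _ : Algebra K Ω := (τ.comp σ).toAlgebra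
  have hcard2 : 2 * N + 1 ≤ 𝓑.card := Nat.le_of_mul_le_mul_left hcard hN
  obtain ⟨x, c, hx, hc, hF, hyx⟩ := h Ω y 𝓑 hy hne hdis hcard2 (by
    intro B hB
    rw [← hvan B hB]
    refine Finset.sum_congr rfl fun t _ => ?_
    rw [← aeval_lin (K := K), ← map_lin σ, eval₂_map, eval₂_map]
    rfl)
  refine ⟨x, c, hx, hc, fun k => ?_, hyx⟩
  rw [eval₂_map]
  exact hF k

theorem special_of_blk (N : ℕ) (hN : 1 ≤ N) : ∃ D₁ : ℕ, ∀ D, D₁ ≤ D →
    ∀ (K : Type) [Field K] (n s : ℕ) (m : Fin (N + 1) → Fin (n + 1) → ℕ)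
    (F : Fin s → MvPolynomial (Fin (n + 1)) K)
    (Q : Fin (N * (2 * N + 1)) → MvPolynomial (Fin (N + 1)) K),
    (∀ t, (Q t).IsHomogeneous 2) → Blk m F D Q → ∀ (σ : K →+* ℂ) (L : Type) [Field L]
    [Algebra ℂ L] (w : ℕ) (y : Fin (N + 1) → L), 1 ≤ w →
    SubVar (fun _ : Unit => map σ (powerFormOver D Q)) L w y →
    GeneralType ℂ L w ∨ ∃ (x : Fin (n + 1) → L) (c : L), x ≠ 0 ∧ c ≠ 0 ∧
      (∀ k, aeval x (map σ (F k)) = 0) ∧ y = c • ver m x := by
  have H := leaves4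
  obtain ⟨D₂, hD₂⟩ := H.gt 2 (N * (2 * N + 1))
  refine ⟨D₂, fun D hD K _ n s m F Q hQ hB σ L _ _ w y hw hy => ?_⟩
  by_cases hgt : GeneralType ℂ L w
  · exact Or.inl hgt
  · right
    obtain ⟨𝓑, hne, hdis, hvan, hcard⟩ := split_card H.part hN (fun t : Fin (N * (2 * N + 1)) =>
        eval₂ (algebraMap ℂ L) y (map σ (Q t)) *
          eval₂ (algebraMap ℂ L) y (lin ℂ N t) ^ D) (by
          rw [← eval₂_form Q σ (algebraMap ℂ L)]
          exact hy.mem ()) (by
        intro B hBc hB0 hBmin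
        apply hgt
        have hc : Fintype.card {t // t ∈ B} = B.card := Fintype.card_coe B
        refine hD₂ D hD L N w y hw hy.ne hy.gen hy.dim {t // t ∈ B} ?_ ?_
          (fun t => map σ (Q t.1)) (fun t => (t.1 : ℕ)) ?_
          (fun t => (hQ t.1).map σ) ?_ ?_
        · rw [hc]
          exact (Finset.card_le_univ B).trans (by simp)
        · rw [hc]
          exact hBc
        · intro a b hab
          exact Subtype.ext (Fin.ext hab)
        · have h1 := hB0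
          rw [← Finset.sum_coe_sort] at h1
          exact h1
        · intro B' hB' hB'u
          exact sub_min (fun t : Fin (N * (2 * N + 1)) =>
            eval₂ (algebraMap ℂ L) y (map σ (Q t)) *
              eval₂ (algebraMap ℂ L) y (lin ℂ N t) ^ D) B hBmin B' hB' hB'u)
    exact hB.use hN σ (algebraMap ℂ L) hy.ne hne hdis hcard hvan

theorem curves_of_blk (N : ℕ) (hN : 1 ≤ N) : ∃ D₁ : ℕ, ∀ D, D₁ ≤ D →
    ∀ (K : Type) [Field K] (n s : ℕ) (m : Fin (N + 1) → Fin (n + 1) → ℕ)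
    (F : Fin s → MvPolynomial (Fin (n + 1)) K)
    (Q : Fin (N * (2 * N + 1)) → MvPolynomial (Fin (N + 1)) K),
    (∀ t, (Q t).IsHomogeneous 2) → Blk m F D Q → ∀ (σ : K →+* ℂ) (f : ℂ → Fin (N + 1) → ℂ),
    (∀ j, Differentiable ℂ fun z => f z j) → (∀ z, f z ≠ 0) →
    (∀ z, eval (f z) (map σ (powerFormOver D Q)) = 0) →
    (∀ z w, ∃ c : ℂ, f w = c • f z) ∨ ∀ z, ∃ (x : Fin (n + 1) → ℂ) (c : ℂ), x ≠ 0 ∧ c ≠ 0 ∧
      (∀ k, eval x (map σ (F k)) = 0) ∧ f z = c • ver m x := by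
  have H := leaves4
  obtain ⟨D₁, hD₁⟩ := curves H.part H.size N 2 (N * (2 * N + 1))
  refine ⟨D₁, fun D hD K _ n s m F Q hQ hB σ f hf h0 hF => ?_⟩
  have h0' : ∀ z, ∃ j, f z j ≠ 0 := by
    intro z
    by_contra hcon
    push Not at hcon
    exact h0 z (funext hcon)
  by_cases hnc : ∃ i j z w, f z i * f w j ≠ f z j * f w i
  · right
    obtain ⟨𝓑, hne, hdis, hvan, hcard⟩ := hD₁ D hD (fun t => map σ (Q t))
      (fun t => (hQ t).map σ) (fun j z => f z j) hf h0' (by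
        intro z
        have h1 := hF z
        change eval₂ (RingHom.id ℂ) _ _ = 0 at h1
        rw [eval₂_form] at h1
        exact h1) hnc
    intro z
    exact hB.use hN σ (RingHom.id ℂ) (h0 z) hne hdis hcard fun B hBB => hvan B hBB z
  · left
    push Not at hnc
    intro z w
    obtain ⟨l, hl⟩ := h0' z
    refine ⟨f w l / f z l, funext fun i => ?_⟩
    rw [Pi.smul_apply, smul_eq_mul, div_mul_eq_mul_div, eq_div_iff hl]
    linear_combination -(hnc i l z w)

/-- LINES: points on lines in the twisted hypersurface -/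
theorem line_of_blk (N : ℕ) (hN : 1 ≤ N) : ∃ D₁ : ℕ, ∀ D, D₁ ≤ D →
    ∀ (K : Type) [Field K] (n s : ℕ) (m : Fin (N + 1) → Fin (n + 1) → ℕ)
    (F : Fin s → MvPolynomial (Fin (n + 1)) K)
    (Q : Fin (N * (2 * N + 1)) → MvPolynomial (Fin (N + 1)) K),
    Blk m F D Q → ∀ (σ : K →+* ℂ) (y : Fin (N + 1) → K), y ≠ 0 →
    ∀ V : Submodule ℂ (Fin (N + 1) → ℂ), (fun j => σ (y j)) ∈ V →
    (∀ v ∈ V, ∑ t : Fin (N * (2 * N + 1)), σ (eval y (Q t)) *
      (∑ j : Fin (N + 1), ((t : ℕ) : ℂ) ^ (j : ℕ) * v j) ^ D = 0) →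
    V = Submodule.span ℂ {fun j => σ (y j)} ∨ OnVer m F y := by
  have H := leaves4
  obtain ⟨D₁, hD₁⟩ := curves H.part H.size N 0 (N * (2 * N + 1))
  refine ⟨D₁, fun D hD K _ n s m F Q hB σ y hy V hyV hV => ?_⟩
  by_cases hVs : V ≤ Submodule.span ℂ {fun j => σ (y j)}
  · left
    refine le_antisymm hVs ?_
    rw [Submodule.span_singleton_le_iff_mem]
    exact hyV
  right
  obtain ⟨v, hvV, hv⟩ := Set.not_subset.1 hVs
  have hσy : (fun j => σ (y j)) ≠ 0 := by
    intro h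
    apply hy
    funext j
    have h1 := congrFun h j
    simpa using h1
  have hlin : ∀ (z : ℂ) (t : Fin (N * (2 * N + 1))),
      eval (fun j => σ (y j) + z * v j) (lin ℂ N t) =
        ∑ j : Fin (N + 1), ((t : ℕ) : ℂ) ^ (j : ℕ) * (σ (y j) + z * v j) := by
    intro z t
    exact aeval_lin (K := ℂ) (Ω := ℂ) _
  have hf0 : ∀ z, ∃ j, σ (y j) + z * v j ≠ 0 := by
    intro z
    by_contra hcon
    push Not at hcon
    by_cases hz : z = 0
    · apply hσy
      funext j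
      have := hcon j
      rwa [hz, zero_mul, add_zero] at this
    · apply hv
      rw [SetLike.mem_coe, Submodule.mem_span_singleton]
      refine ⟨-z⁻¹, funext fun j => ?_⟩
      have h1 := hcon j
      rw [Pi.smul_apply, smul_eq_mul]
      field_simp
      linear_combination -h1
  obtain ⟨𝓑, hne, hdis, hvan, hcard⟩ := hD₁ D hD (fun t => C (σ (eval y (Q t))))
    (fun t => isHomogeneous_C _ _) (fun j z => σ (y j) + z * v j) (fun j => by fun_prop) hf0 (by
      intro z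
      have h1 := hV (fun j => σ (y j) + z * v j) (V.add_mem hyV (V.smul_mem z hvV))
      rw [← h1]
      refine Finset.sum_congr rfl fun t _ => ?_
      unfold term
      rw [eval_C, hlin]) (by
      by_contra hcon
      push Not at hcon
      obtain ⟨a, ha⟩ : ∃ a, σ (y a) ≠ 0 := by
        by_contra hcon2
        push Not at hcon2
        exact hσy (funext hcon2)
      apply hv
      rw [SetLike.mem_coe, Submodule.mem_span_singleton]
      refine ⟨v a / σ (y a), funext fun j => ?_⟩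
      have h1 := hcon a j 0 1
      rw [Pi.smul_apply, smul_eq_mul, div_mul_eq_mul_div, div_eq_iff ha]
      simp only [zero_mul, add_zero, one_mul] at h1
      linear_combination -h1)
  let _ : Algebra K K := Algebra.id K
  refine hB K y 𝓑 hy hne hdis (Nat.le_of_mul_le_mul_left hcard hN) fun B hBB => ?_
  apply σ.injective
  rw [map_zero, ← hvan B hBB 0, map_sum]
  refine Finset.sum_congr rfl fun t _ => ?_
  unfold term
  rw [eval_C, hlin, map_mul, map_pow, map_sum]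
  congr 2
  refine Finset.sum_congr rfl fun j _ => ?_
  rw [map_mul, map_pow, map_natCast, zero_mul, add_zero]

end Pool.Agent.K9h36.LG
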