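import Mathlib

/-!
Heights of the values of quadratic forms.
-/

set_option autoImplicit false

namespace Pool.Agent.K9h36.LG

open MvPolynomial Height

/-- the number of monomials of degree two in `N + 1` variables -/
def M2 (N : ℕ) : ℕ := (Finset.finsuppAntidiag (Finset.univ : Finset (Fin (N + 1))) 2).card

theorem M2_pos (N : ℕ) : 1 ≤ M2 N := by
  unfold M2
  rw [Nat.one_le_iff_ne_zero, ← Nat.pos_iff_ne_zero, Finset.card_pos]
  refine ⟨Finsupp.single 0 2, ?_⟩
  rw [Finset.mem_finsuppAntidiag]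
  refine ⟨?_, Finset.subset_univ _⟩
  simp

theorem quad_height {K : Type} [Field K] [NumberField K] {N : ℕ}
    (Q : MvPolynomial (Fin (N + 1)) K) (hQ : Q.IsHomogeneous 2) (x : Fin (N + 1) → K) (A H : ℝ)
    (hA : 1 ≤ A) (hH : 1 ≤ H) (hc : ∀ s, mulHeight₁ (coeff s Q) ≤ A)
    (hx : ∀ j, mulHeight₁ (x j) ≤ H) :
    mulHeight₁ (eval x Q) ≤ (M2 N : ℝ) ^ (Module.finrank ℚ K) * (A * H ^ 2) ^ M2 N := by
  classical
  have hM : (1 : ℝ) ≤ (M2 N : ℝ) := by exact_mod_cast M2_pos N
  have hAH : 1 ≤ A * H ^ 2 := one_le_mul_of_one_le_of_one_le hA (one_le_pow₀ hH)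
  rcases Q.support.eq_empty_or_nonempty with h0 | hne
  · rw [eval_eq', h0, Finset.sum_empty, mulHeight₁_zero]
    exact one_le_mul_of_one_le_of_one_le (one_le_pow₀ hM) (one_le_pow₀ hAH)
  have hdeg : ∀ s ∈ Q.support, ∑ j, s j = 2 := by
    intro s hs
    have h1 := hQ (mem_support_iff.1 hs)
    rw [← h1, Finsupp.weight_apply, Finsupp.sum_fintype]
    · simp
    · simp
  have hcard : Q.support.card ≤ M2 N := by
    refine Finset.card_le_card fun s hs => ?_
    rw [Finset.mem_finsuppAntidiag]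
    exact ⟨hdeg s hs, Finset.subset_univ _⟩
  have hterm : ∀ s ∈ Q.support, mulHeight₁ (coeff s Q * ∏ j, x j ^ s j) ≤ A * H ^ 2 := by
    intro s hs
    calc mulHeight₁ (coeff s Q * ∏ j, x j ^ s j)
        ≤ mulHeight₁ (coeff s Q) * mulHeight₁ (∏ j, x j ^ s j) := mulHeight₁_mul_le _ _
      _ ≤ mulHeight₁ (coeff s Q) * ∏ j, mulHeight₁ (x j ^ s j) := by
          exact mul_le_mul_of_nonneg_left (mulHeight₁_prod_le _ _) (mulHeight₁_nonneg _)
      _ ≤ A * ∏ j, H ^ s j := by
          refine mul_le_mul (hc s) ?_ (Finset.prod_nonneg fun j _ => mulHeight₁_nonneg _)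
            (by linarith)
          refine Finset.prod_le_prod (fun j _ => mulHeight₁_nonneg _) fun j _ => ?_
          rw [mulHeight₁_pow]
          exact pow_le_pow_left₀ (mulHeight₁_nonneg _) (hx j) _
      _ = A * H ^ 2 := by rw [Finset.prod_pow_eq_pow_sum, hdeg s hs]
  rw [eval_eq']
  calc mulHeight₁ (∑ s ∈ Q.support, coeff s Q * ∏ j, x j ^ s j)
      ≤ Q.support.card ^ (totalWeight K) *
        ∏ s ∈ Q.support, mulHeight₁ (coeff s Q * ∏ j, x j ^ s j) := mulHeight₁_sum_le hne _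
    _ ≤ (M2 N : ℝ) ^ (Module.finrank ℚ K) * (A * H ^ 2) ^ M2 N := by
        rw [NumberField.totalWeight_eq_finrank]
        refine mul_le_mul (pow_le_pow_left₀ (by positivity) (by exact_mod_cast hcard) _) ?_
          (Finset.prod_nonneg fun j _ => mulHeight₁_nonneg _) (by positivity)
        calc ∏ s ∈ Q.support, mulHeight₁ (coeff s Q * ∏ j, x j ^ s j)
            ≤ ∏ _s ∈ Q.support, (A * H ^ 2) :=
              Finset.prod_le_prod (fun _ _ => mulHeight₁_nonneg _) hterm
          _ = (A * H ^ 2) ^ Q.support.card := by rw [Finset.prod_const]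
          _ ≤ (A * H ^ 2) ^ M2 N := pow_le_pow_right₀ hAH hcard

/-- coordinates of normalised vectors -/
theorem coord_height {K : Type} [Field K] [NumberField K] {N : ℕ} (y : Fin (N + 1) → K)
    (a j : Fin (N + 1)) : mulHeight₁ (y j / y a) ≤ mulHeight y := by
  rw [mulHeight₁_div_eq_mulHeight]
  have h := mulHeight_comp_le ![j, a] y
  have h2 : y ∘ ![j, a] = ![y j, y a] := by
    funext i
    fin_cases i <;> rfl
  rwa [h2] at h

end Pool.Agent.K9h36.LG
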