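import Pool.Agent.K9h36.LG.SpB
import Pool.Agent.K9h36.LG.SpH
import Pool.Agent.N741.HB.Thm3

/-!
Algebraic points of bounded degree outside of `v(X)`.
-/

set_option autoImplicit false

namespace Pool.Agent.K9h36.LG

open MvPolynomial Height
open Pool.Agent.N254.SQ (lin powerFormOver ver eval₂_scale lin_hom)
open Pool.Agent.N741.HB Pool.Agent.N741.HC

theorem form_hom {K : Type} [Field K] {N M D : ℕ} {Q : Fin M → MvPolynomial (Fin (N + 1)) K}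
    (hQ : ∀ t, (Q t).IsHomogeneous 2) : (powerFormOver D Q).IsHomogeneous (2 + D) := by
  have h : powerFormOver D Q = ∑ t : Fin M, Q t * lin K N t ^ D := rfl
  rw [h]
  refine IsHomogeneous.sum _ _ _ fun t _ => ?_
  have h1 := (hQ t).mul ((lin_hom K N t).pow D)
  rwa [one_mul] at h1

theorem eval_form {K : Type} [Field K] {N M D : ℕ} (Q : Fin M → MvPolynomial (Fin (N + 1)) K)
    (y : Fin (N + 1) → K) : eval y (powerFormOver D Q) = ∑ t : Fin M, eval y (Q t) *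
      (∑ j : Fin (N + 1), ((t : ℕ) : K) ^ (j : ℕ) * y j) ^ D := by
  have h : powerFormOver D Q = ∑ t : Fin M, Q t * lin K N t ^ D := rfl
  rw [h, map_sum]
  refine Finset.sum_congr rfl fun t _ => ?_
  rw [map_mul, map_pow]
  congr 2
  let _ : Algebra K K := Algebra.id K
  exact aeval_lin (K := K) (Ω := K) y

theorem OnVer.smul {K : Type} [Field K] {n N s : ℕ} {m : Fin (N + 1) → Fin (n + 1) → ℕ}
    {F : Fin s → MvPolynomial (Fin (n + 1)) K} {y : Fin (N + 1) → K} {c : K} (hc : c ≠ 0)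
    (h : OnVer m F (c • y)) : OnVer m F y := by
  obtain ⟨x, c', hx, hc', hF, hy⟩ := h
  refine ⟨x, c⁻¹ * c', hx, mul_ne_zero (inv_ne_zero hc) hc', hF, ?_⟩
  rw [mul_smul, ← hy, smul_smul, inv_mul_cancel₀ hc, one_smul]

/-- the points of one set of indices with nonzero quadratic forms and one exponent -/
theorem step (N κ E : ℕ) (hN : 1 ≤ N) (ε : ℝ) (hε : 0 < ε) : ∃ (R : ℕ) (δ : ℝ), 0 < δ ∧
    ∀ B : ℕ, 1 ≤ B → ∀ D : ℕ, R ≤ D → (D : ℝ) ≤ (B : ℝ) ^ δ →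
    ∀ I : Finset (Fin (N * (2 * N + 1))), ∃ T : Finset (Submodule ℂ (Fin (N + 1) → ℂ)),
    (T.card : ℝ) ≤ ((2 * M2 N * (N * (2 * N + 1)) ^ N : ℕ) : ℝ) ^ ε * (B : ℝ) ^ ε ∧
      ∀ (K : Type) [Field K] [NumberField K] (σ : K →+* ℂ) (n s : ℕ)
        (m : Fin (N + 1) → Fin (n + 1) → ℕ) (F : Fin s → MvPolynomial (Fin (n + 1)) K)
        (Q : Fin (N * (2 * N + 1)) → MvPolynomial (Fin (N + 1)) K), Module.finrank ℚ K ≤ κ →
        (∀ t, (Q t).IsHomogeneous 2) → Blk m F D Q →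
        (∀ t α, mulHeight₁ (coeff α (Q t)) ≤ ((B : ℝ) ^ E) ^ Module.finrank ℚ K) →
        ∀ y : Fin (N + 1) → K, y ≠ 0 → eval y (powerFormOver D Q) = 0 → ¬ OnVer m F y →
        mulHeight y ≤ (B : ℝ) ^ Module.finrank ℚ K → (∀ t, t ∈ I ↔ eval y (Q t) ≠ 0) →
        Submodule.span ℂ {fun j => σ (y j)} ∈ T := by
  classical
  obtain ⟨E', hE'⟩ : ∃ E', E' = 1 + (E + 2) * M2 N := ⟨_, rfl⟩
  obtain ⟨R₁, δ, hδ, H⟩ := covA (N + 1) (N * (2 * N + 1)) 1 E' κ (ε / (κ + 1)) (by positivity)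
  obtain ⟨D₁, hD₁⟩ := line_of_blk N hN
  refine ⟨max R₁ D₁, δ, hδ, fun B hB D hRD hDB I => ?_⟩
  have hDR : R₁ ≤ D := (le_max_left _ _).trans hRD
  have hDD : D₁ ≤ D := (le_max_right _ _).trans hRD
  obtain ⟨A₀, hA₀⟩ : ∃ A₀, A₀ = 2 * M2 N * (N * (2 * N + 1)) ^ N := ⟨_, rfl⟩
  have hM := M2_pos N
  have hL1 : 1 ≤ N * (2 * N + 1) := Nat.mul_pos hN (by omega)
  have hLN : 1 ≤ (N * (2 * N + 1)) ^ N := Nat.one_le_pow _ _ hL1
  have hA₀1 : 1 ≤ A₀ := by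
    rw [hA₀]
    exact Nat.mul_pos (Nat.mul_pos (by norm_num) hM) hLN
  have hA₀M : M2 N ≤ A₀ := by
    rw [hA₀]
    calc M2 N ≤ 2 * M2 N := by omega
      _ ≤ 2 * M2 N * (N * (2 * N + 1)) ^ N := Nat.le_mul_of_pos_right _ hLN
  have hA₀L : (N * (2 * N + 1)) ^ N ≤ A₀ := by
    rw [hA₀]
    exact Nat.le_mul_of_pos_left _ (Nat.mul_pos (by norm_num) hM)
  obtain ⟨A, hA⟩ : ∃ A, A = A₀ * B := ⟨_, rfl⟩
  have hA1 : 1 ≤ A := by rw [hA]; exact Nat.mul_pos hA₀1 hB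
  have hBA : B ≤ A := by rw [hA]; exact Nat.le_mul_of_pos_left _ hA₀1
  have hA₀A : A₀ ≤ A := by rw [hA]; exact Nat.le_mul_of_pos_right _ hB
  obtain ⟨Z, hZ⟩ : ∃ Z, Z = A ^ (κ + 1) := ⟨_, rfl⟩
  have hAZ : A ≤ Z := by rw [hZ]; exact Nat.le_self_pow (by omega) _
  have hZ1 : 1 ≤ Z := hA1.trans hAZ
  have hA1' : (1 : ℝ) ≤ (A : ℝ) := by exact_mod_cast hA1
  have hB1' : (1 : ℝ) ≤ (B : ℝ) := by exact_mod_cast hB
  have hBA' : (B : ℝ) ≤ (A : ℝ) := by exact_mod_cast hBA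
  have hAZ' : (A : ℝ) ≤ (Z : ℝ) := by exact_mod_cast hAZ
  have hZ1' : (1 : ℝ) ≤ (Z : ℝ) := by exact_mod_cast hZ1
  have hZE : (1 : ℝ) ≤ (Z : ℝ) ^ E' := one_le_pow₀ hZ1'
  have hZp : ((Z : ℕ) : ℝ) = (A : ℝ) ^ (κ + 1) := by rw [hZ]; push_cast; rfl
  obtain ⟨T, hT1, hT2⟩ := H Z hZ1 (fun _ => D) (fun _ => 1)
    (fun _ => ⟨hDR, le_rfl, by
      rw [mul_one]
      exact hDB.trans (Real.rpow_le_rpow (by positivity) (hBA'.trans hAZ') hδ.le)⟩)
    (fun _ t => if t ∈ I then 1 else 0) (fun _ => 0)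
    (fun _ t => by
      refine le_trans ?_ (Real.one_le_exp (by positivity))
      split_ifs <;> simp)
    (fun _ => by
      simp only [abs_zero, Int.cast_zero]
      exact (Real.exp_pos _).le)
    (fun _ t j => ((t : ℕ) : ℤ) ^ (j : ℕ))
    (fun _ t j => by
      rw [abs_of_nonneg (by positivity)]
      have h1 : (t : ℕ) ^ (j : ℕ) ≤ Z ^ E' := by
        calc (t : ℕ) ^ (j : ℕ) ≤ (N * (2 * N + 1)) ^ (j : ℕ) := Nat.pow_le_pow_left t.2.le _
          _ ≤ (N * (2 * N + 1)) ^ N := Nat.pow_le_pow_right hL1 (by omega)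
          _ ≤ Z := (hA₀L.trans hA₀A).trans hAZ
          _ ≤ Z ^ E' := Nat.le_self_pow (by omega) _
      exact_mod_cast h1)
  refine ⟨T, ?_, ?_⟩
  · refine hT1.trans (le_of_eq ?_)
    rw [hZp, ← hA₀, ← Real.rpow_natCast, ← Real.rpow_mul (by positivity), hA, Nat.cast_mul,
      Real.mul_rpow (by positivity) (by positivity)]
    have h1 : (((κ + 1 : ℕ) : ℝ)) * (ε / (κ + 1)) = ε := by
      push_cast
      field_simp
    rw [h1]
  · intro K _ _ σ n s m F Q hκ hQ hBlk hco y hy0 hy hver hht hI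
    obtain ⟨f, hf⟩ : ∃ f, f = Module.finrank ℚ K := ⟨_, rfl⟩
    rw [← hf] at hκ hco hht
    obtain ⟨a, ha⟩ : ∃ a, y a ≠ 0 := by
      by_contra hcon
      push Not at hcon
      exact hy0 (funext hcon)
    have hai : (y a)⁻¹ ≠ 0 := inv_ne_zero ha
    obtain ⟨x, hx⟩ : ∃ x, x = (y a)⁻¹ • y := ⟨_, rfl⟩
    have hx0 : x ≠ 0 := by
      rw [hx]
      exact smul_ne_zero hai hy0
    have hspan : Submodule.span ℂ {fun j => σ (y j)} = Submodule.span ℂ {fun j => σ (x j)} := by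
      have h1 : (fun j => σ (x j)) = σ (y a)⁻¹ • fun j => σ (y j) := by
        funext j
        rw [hx]
        simp
      rw [h1]
      refine (Submodule.span_singleton_smul_eq ?_ _).symm
      exact IsUnit.mk0 _ ((map_ne_zero σ).2 hai)
    have hverx : ¬ OnVer m F x := by
      intro h
      rw [hx] at h
      exact hver (h.smul hai)
    have hQx : ∀ t, eval x (Q t) = (y a)⁻¹ ^ 2 * eval y (Q t) := by
      intro t
      rw [hx]
      exact eval₂_scale (RingHom.id K) (hQ t) _ _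
    have hIx : ∀ t, t ∈ I ↔ eval x (Q t) ≠ 0 := by
      intro t
      rw [hI, hQx]
      simp [ha]
    have hxF : eval x (powerFormOver D Q) = 0 := by
      have h1 : eval x (powerFormOver D Q) = (y a)⁻¹ ^ (2 + D) * eval y (powerFormOver D Q) := by
        rw [hx]
        exact eval₂_scale (RingHom.id K) (form_hom hQ) _ _
      rw [h1, hy, mul_zero]
    have hBf : (1 : ℝ) ≤ (B : ℝ) ^ f := one_le_pow₀ hB1'
    have hBfZ : (B : ℝ) ^ f ≤ (Z : ℝ) := by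
      rw [hZp]
      calc (B : ℝ) ^ f ≤ (A : ℝ) ^ f := pow_le_pow_left₀ (by positivity) hBA' _
        _ ≤ (A : ℝ) ^ (κ + 1) := pow_le_pow_right₀ hA1' (by omega)
    have hhx : mulHeight x ≤ (B : ℝ) ^ f := by
      rw [hx, mulHeight_smul_eq_mulHeight _ hai]
      exact hht
    have hxj : ∀ j, mulHeight₁ (x j) ≤ (B : ℝ) ^ f := by
      intro j
      have h1 := coord_height y a j
      rw [hx, Pi.smul_apply, smul_eq_mul, inv_mul_eq_div]
      exact h1.trans hht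
    obtain ⟨S, hS⟩ : ∃ S : Fin (N * (2 * N + 1)) → K,
      ∀ t, S t = if eval x (Q t) = 0 then 1 else eval x (Q t) := ⟨_, fun _ => rfl⟩
    have hS0 : ∀ t, S t ≠ 0 := by
      intro t
      rw [hS]
      split_ifs with h
      · exact one_ne_zero
      · exact h
    have hSh : ∀ t, mulHeight₁ (S t) ≤ (Z : ℝ) ^ E' := by
      intro t
      rw [hS]
      split_ifs with h
      · rw [mulHeight₁_one]
        exact hZE
      · have h1 := quad_height (Q t) (hQ t) x (((B : ℝ) ^ E) ^ f) ((B : ℝ) ^ f)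
          (one_le_pow₀ (one_le_pow₀ hB1')) hBf (hco t) hxj
        refine h1.trans ?_
        rw [← hf]
        have hMA : ((M2 N : ℕ) : ℝ) ≤ (A : ℝ) := by exact_mod_cast hA₀M.trans hA₀A
        calc ((M2 N : ℕ) : ℝ) ^ f * (((B : ℝ) ^ E) ^ f * ((B : ℝ) ^ f) ^ 2) ^ M2 N
            ≤ (A : ℝ) ^ f * (((A : ℝ) ^ E) ^ f * ((A : ℝ) ^ f) ^ 2) ^ M2 N := by gcongr
          _ = (A : ℝ) ^ (f + (f * (E + 2)) * M2 N) := by ring
          _ ≤ (A : ℝ) ^ ((κ + 1) * E') := by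
              refine pow_le_pow_right₀ hA1' ?_
              rw [hE']
              calc f + (f * (E + 2)) * M2 N = f * (1 + (E + 2) * M2 N) := by ring
                _ ≤ (κ + 1) * (1 + (E + 2) * M2 N) := Nat.mul_le_mul_right _ (by omega)
          _ = (Z : ℝ) ^ E' := by rw [hZp, pow_mul]
    have huS : ∀ t, ((if t ∈ I then 1 else 0 : ℤ) : K) * S t = eval x (Q t) := by
      intro t
      rw [hS]
      by_cases h : eval x (Q t) = 0
      · have h2 : t ∉ I := by rw [hIx]; exact fun h3 => h3 h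
        rw [if_neg h2, h]
        simp
      · have h2 : t ∈ I := (hIx t).2 h
        rw [if_pos h2, if_neg h]
        simp
    obtain ⟨V, hV, hxV, l, c, -, hc⟩ := hT2 K σ (by rw [← hf]; exact hκ) x (fun _ => S) (fun _ => 1) (fun _ => 0) hx0
      (hhx.trans hBfZ) (fun _ t => ⟨hS0 t, hSh t⟩)
      (fun _ => ⟨one_ne_zero, by rw [mulHeight₁_one]; exact hZE⟩) (fun _ => by
        refine ⟨?_, fun _ => rfl⟩
        rw [Int.cast_zero, zero_mul, zero_mul, ← hxF, eval_form]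
        refine Finset.sum_congr rfl fun t _ => ?_
        rw [← mul_assoc, huS, mul_one]
        push_cast
        rfl)
    rcases hD₁ D hDD K n s m F Q hBlk σ x hx0 V hxV (by
      intro v hv
      have h1 := (hc v hv 0).1
      rw [Int.cast_zero, zero_mul, zero_mul] at h1
      rw [h1]
      refine Finset.sum_congr rfl fun t _ => ?_
      rw [← mul_assoc, ← huS t, map_mul, map_intCast, mul_one]
      congr 2
      unfold linC
      push_cast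
      rfl) with h | h
    · rw [hspan, ← h]
      exact hV
    · exact absurd h hverx

/-- all exponents in a range, all number fields of bounded degree, all hypersurfaces at once -/
theorem sparse (N κ E : ℕ) (hN : 1 ≤ N) (ε : ℝ) (hε : 0 < ε) : ∃ (R : ℕ) (δ : ℝ), 0 < δ ∧
    ∀ B : ℕ, 1 ≤ B → ∃ T : Finset (Submodule ℂ (Fin (N + 1) → ℂ)), (T.card : ℝ) ≤ (B : ℝ) ^ ε ∧
      ∀ D : ℕ, R ≤ D → (D : ℝ) ≤ (B : ℝ) ^ δ →
      ∀ (K : Type) [Field K] [NumberField K] (σ : K →+* ℂ) (n s : ℕ)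
        (m : Fin (N + 1) → Fin (n + 1) → ℕ) (F : Fin s → MvPolynomial (Fin (n + 1)) K)
        (Q : Fin (N * (2 * N + 1)) → MvPolynomial (Fin (N + 1)) K), Module.finrank ℚ K ≤ κ →
        (∀ t, (Q t).IsHomogeneous 2) → Blk m F D Q →
        (∀ t α, mulHeight₁ (coeff α (Q t)) ≤ ((B : ℝ) ^ E) ^ Module.finrank ℚ K) →
        ∀ y : Fin (N + 1) → K, y ≠ 0 → eval y (powerFormOver D Q) = 0 → ¬ OnVer m F y →
        mulHeight y ≤ (B : ℝ) ^ Module.finrank ℚ K →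
        Submodule.span ℂ {fun j => σ (y j)} ∈ T := by
  classical
  obtain ⟨R, δ, hδ, H⟩ := step N κ E hN (ε / 4) (by positivity)
  obtain ⟨L, hL⟩ : ∃ L, L = N * (2 * N + 1) := ⟨_, rfl⟩
  obtain ⟨A₀, hA₀⟩ : ∃ A₀, A₀ = 2 * M2 N * L ^ N := ⟨_, rfl⟩
  obtain ⟨c, hc⟩ : ∃ c : ℝ, c = 2 * 2 ^ L * (A₀ : ℝ) ^ (ε / 4) := ⟨_, rfl⟩
  have hc0 : 0 ≤ c := by rw [hc]; positivity
  obtain ⟨R₁, hR₁⟩ : ∃ R₁ : ℕ, c ≤ (R₁ : ℝ) ^ (ε / 2) := by
    refine ⟨⌈c ^ (2 / ε)⌉₊, ?_⟩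
    have h1 : c = (c ^ (2 / ε)) ^ (ε / 2) := by
      rw [← Real.rpow_mul hc0, show (2 / ε) * (ε / 2) = 1 by field_simp, Real.rpow_one]
    conv_lhs => rw [h1]
    exact Real.rpow_le_rpow (by positivity) (Nat.le_ceil _) (by positivity)
  refine ⟨max R R₁, min δ (min 1 (ε / 4)), lt_min hδ (lt_min one_pos (by positivity)),
    fun B hB => ?_⟩
  have hB1 : (1 : ℝ) ≤ (B : ℝ) := by exact_mod_cast hB
  obtain ⟨δ', hδ'⟩ : ∃ δ', δ' = min δ (min 1 (ε / 4)) := ⟨_, rfl⟩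
  rw [← hδ']
  have hd1 : δ' ≤ δ := by rw [hδ']; exact min_le_left _ _
  have hd2 : δ' ≤ 1 := by rw [hδ']; exact (min_le_right _ _).trans (min_le_left _ _)
  have hd3 : δ' ≤ ε / 4 := by rw [hδ']; exact (min_le_right _ _).trans (min_le_right _ _)
  have hp1 : (B : ℝ) ^ δ' ≤ (B : ℝ) ^ δ := Real.rpow_le_rpow_of_exponent_le hB1 hd1
  have hp2 : (B : ℝ) ^ δ' ≤ (B : ℝ) := by
    calc (B : ℝ) ^ δ' ≤ (B : ℝ) ^ (1 : ℝ) := Real.rpow_le_rpow_of_exponent_le hB1 hd2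
      _ = (B : ℝ) := Real.rpow_one _
  have hp3 : (B : ℝ) ^ δ' ≤ (B : ℝ) ^ (ε / 4) := Real.rpow_le_rpow_of_exponent_le hB1 hd3
  by_cases hRB : ((max R R₁ : ℕ) : ℝ) ≤ (B : ℝ) ^ δ'
  swap
  · refine ⟨∅, ?_, ?_⟩
    · rw [Finset.card_empty, Nat.cast_zero]
      positivity
    · intro D hD1 hD2
      exact absurd (le_trans (by exact_mod_cast hD1) hD2) hRB
  have hcB : c ≤ (B : ℝ) ^ (ε / 2) := by
    refine hR₁.trans (Real.rpow_le_rpow (by positivity) ?_ (by positivity))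
    refine le_trans ?_ (hRB.trans hp2)
    exact_mod_cast le_max_right _ _
  have key : ∀ D ∈ Finset.Icc (max R R₁) ⌊(B : ℝ) ^ δ'⌋₊, R ≤ D ∧ (D : ℝ) ≤ (B : ℝ) ^ δ := by
    intro D hD
    rw [Finset.mem_Icc] at hD
    refine ⟨(le_max_left _ _).trans hD.1, ?_⟩
    have h1 : (D : ℝ) ≤ (⌊(B : ℝ) ^ δ'⌋₊ : ℝ) := by exact_mod_cast hD.2
    exact (h1.trans (Nat.floor_le (by positivity))).trans hp1
  have key2 := fun (D : ℕ) (hD : D ∈ Finset.Icc (max R R₁) ⌊(B : ℝ) ^ δ'⌋₊) =>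
    H B hB D (key D hD).1 (key D hD).2
  rw [← hL] at key2
  choose! T hT1 hT2 using key2
  refine ⟨(Finset.Icc (max R R₁) ⌊(B : ℝ) ^ δ'⌋₊).biUnion fun D =>
    (Finset.univ : Finset (Finset (Fin L))).biUnion fun I => T D I, ?_, ?_⟩
  · have hTT : ∀ D ∈ Finset.Icc (max R R₁) ⌊(B : ℝ) ^ δ'⌋₊, ∀ I,
        ((T D I).card : ℝ) ≤ (A₀ : ℝ) ^ (ε / 4) * (B : ℝ) ^ (ε / 4) := by
      intro D hD I
      rw [hA₀]
      exact hT1 D hD I
    have h1 : ∀ D ∈ Finset.Icc (max R R₁) ⌊(B : ℝ) ^ δ'⌋₊,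
        ((((Finset.univ : Finset (Finset (Fin L))).biUnion fun I => T D I).card : ℕ) : ℝ) ≤
          2 ^ L * ((A₀ : ℝ) ^ (ε / 4) * (B : ℝ) ^ (ε / 4)) := by
      intro D hD
      calc ((((Finset.univ : Finset (Finset (Fin L))).biUnion fun I => T D I).card : ℕ) : ℝ)
          ≤ ((∑ I : Finset (Fin L), (T D I).card : ℕ) : ℝ) := by
            exact_mod_cast Finset.card_biUnion_le
        _ = ∑ I : Finset (Fin L), ((T D I).card : ℝ) := by push_cast; rfl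
        _ ≤ ∑ _I : Finset (Fin L), ((A₀ : ℝ) ^ (ε / 4) * (B : ℝ) ^ (ε / 4)) :=
            Finset.sum_le_sum fun I _ => hTT D hD I
        _ = 2 ^ L * ((A₀ : ℝ) ^ (ε / 4) * (B : ℝ) ^ (ε / 4)) := by
            rw [Finset.sum_const, Finset.card_univ, Fintype.card_finset, Fintype.card_fin,
              nsmul_eq_mul]
            push_cast
            rfl
    have h2 : ((Finset.Icc (max R R₁) ⌊(B : ℝ) ^ δ'⌋₊).card : ℝ) ≤ 2 * (B : ℝ) ^ (ε / 4) := by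
      rw [Nat.card_Icc]
      have h3 : ((⌊(B : ℝ) ^ δ'⌋₊ + 1 - max R R₁ : ℕ) : ℝ) ≤ (⌊(B : ℝ) ^ δ'⌋₊ : ℝ) + 1 := by
        have : ⌊(B : ℝ) ^ δ'⌋₊ + 1 - max R R₁ ≤ ⌊(B : ℝ) ^ δ'⌋₊ + 1 := Nat.sub_le _ _
        exact_mod_cast this
      have h4 : (⌊(B : ℝ) ^ δ'⌋₊ : ℝ) ≤ (B : ℝ) ^ δ' := Nat.floor_le (by positivity)
      have h5 : (1 : ℝ) ≤ (B : ℝ) ^ (ε / 4) := Real.one_le_rpow hB1 (by positivity)
      linarith
    calc ((((Finset.Icc (max R R₁) ⌊(B : ℝ) ^ δ'⌋₊).biUnion fun D =>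
          (Finset.univ : Finset (Finset (Fin L))).biUnion fun I => T D I).card : ℕ) : ℝ)
        ≤ ((∑ D ∈ Finset.Icc (max R R₁) ⌊(B : ℝ) ^ δ'⌋₊,
          ((Finset.univ : Finset (Finset (Fin L))).biUnion fun I => T D I).card : ℕ) : ℝ) := by
            exact_mod_cast Finset.card_biUnion_le
      _ = ∑ D ∈ Finset.Icc (max R R₁) ⌊(B : ℝ) ^ δ'⌋₊,
          ((((Finset.univ : Finset (Finset (Fin L))).biUnion fun I => T D I).card : ℕ) : ℝ) := by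
            push_cast; rfl
      _ ≤ ∑ _D ∈ Finset.Icc (max R R₁) ⌊(B : ℝ) ^ δ'⌋₊,
          2 ^ L * ((A₀ : ℝ) ^ (ε / 4) * (B : ℝ) ^ (ε / 4)) := Finset.sum_le_sum h1
      _ = ((Finset.Icc (max R R₁) ⌊(B : ℝ) ^ δ'⌋₊).card : ℝ) *
          (2 ^ L * ((A₀ : ℝ) ^ (ε / 4) * (B : ℝ) ^ (ε / 4))) := by
            rw [Finset.sum_const, nsmul_eq_mul]
      _ ≤ (2 * (B : ℝ) ^ (ε / 4)) * (2 ^ L * ((A₀ : ℝ) ^ (ε / 4) * (B : ℝ) ^ (ε / 4))) := by
            gcongr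
      _ = c * ((B : ℝ) ^ (ε / 4) * (B : ℝ) ^ (ε / 4)) := by rw [hc]; ring
      _ = c * (B : ℝ) ^ (ε / 2) := by
            rw [← Real.rpow_add (by linarith)]
            congr 2
            ring
      _ ≤ (B : ℝ) ^ (ε / 2) * (B : ℝ) ^ (ε / 2) := by gcongr
      _ = (B : ℝ) ^ ε := by
            rw [← Real.rpow_add (by linarith)]
            congr 1
            ring
  · intro D hD1 hD2 K _ _ σ n s m F Q hκ hQ hBlk hco y hy0 hy hver hht
    have hD : D ∈ Finset.Icc (max R R₁) ⌊(B : ℝ) ^ δ'⌋₊ :=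
      Finset.mem_Icc.2 ⟨hD1, Nat.le_floor hD2⟩
    rw [Finset.mem_biUnion]
    refine ⟨D, hD, ?_⟩
    rw [Finset.mem_biUnion]
    subst hL
    refine ⟨Finset.univ.filter fun t => eval y (Q t) ≠ 0, Finset.mem_univ _, ?_⟩
    exact hT2 D hD _ K σ n s m F Q hκ hQ hBlk hco y hy0 hy hver hht fun t => by simp

end Pool.Agent.K9h36.LG
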