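import Mathlib

/-!
Heights of integral combinations in extensions, zeros in boxes.
-/

set_option autoImplicit false

namespace Pool.Agent.K9h36.LG

open MvPolynomial Height NumberField

theorem int_height {k K : Type} [Field k] [Field K] [NumberField K] [Algebra k K] (x : k)
    (hx : IsIntegral ℤ x) (A : ℝ) (hA : 1 ≤ A) (h : ∀ φ : k →+* ℂ, ‖φ x‖ ≤ A) :
    mulHeight₁ (algebraMap k K x) ≤ A ^ Module.finrank ℚ K := by
  rw [NumberField.mulHeight₁_eq]
  have hint : IsIntegral ℤ (algebraMap k K x) := hx.map (algebraMap k K).toIntAlgHom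
  have e1 : ∏ᶠ v : FinitePlace K, max (v (algebraMap k K x)) 1 = 1 := by
    refine finprod_eq_one_of_forall_eq_one fun v => max_eq_right ?_
    have h1 := FinitePlace.norm_le_one K v.maximalIdeal (⟨algebraMap k K x, hint⟩ : 𝓞 K)
    rw [FinitePlace.norm_embedding_eq] at h1
    exact h1
  rw [e1, mul_one]
  calc ∏ v : InfinitePlace K, max (v (algebraMap k K x)) 1 ^ v.mult
      ≤ ∏ v : InfinitePlace K, A ^ v.mult := by
        refine Finset.prod_le_prod (fun v _ => by positivity) fun v _ => ?_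
        refine pow_le_pow_left₀ (by positivity) (max_le ?_ hA) _
        rw [← InfinitePlace.norm_embedding_eq v]
        exact h (v.embedding.comp (algebraMap k K))
    _ = A ^ Module.finrank ℚ K := by
        rw [Finset.prod_pow_eq_pow_sum, InfinitePlace.sum_mult_eq]

theorem comb_height {k : Type} [Field k] [NumberField k] {ι : Type} [Fintype ι] (q : ι → k) :
    ∃ C : ℕ, 1 ≤ C ∧ ∀ T : ℕ, 1 ≤ T → ∀ c : ι → ℤ, (∀ i, |c i| ≤ T) →
      ∀ (K : Type) [Field K] [NumberField K] [Algebra k K],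
        mulHeight₁ (algebraMap k K (∑ i, (c i : k) * q i)) ≤
          ((C * T : ℕ) : ℝ) ^ Module.finrank ℚ K := by
  classical
  have hm : ∀ i, ∃ m : ℤ, m ≠ 0 ∧ IsIntegral ℤ ((m : k) * q i) := by
    intro i
    have h1 : IsAlgebraic ℤ (q i) := by
      rw [IsFractionRing.isAlgebraic_iff ℤ ℚ k]
      exact Algebra.IsAlgebraic.isAlgebraic _
    obtain ⟨y, hy, h2⟩ := h1.exists_integral_multiple
    refine ⟨y, hy, ?_⟩
    rwa [zsmul_eq_mul] at h2
  choose m hm0 hm using hm
  obtain ⟨M, hM⟩ : ∃ M : ℤ, M = ∏ i, m i := ⟨_, rfl⟩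
  have hM0 : M ≠ 0 := by
    rw [hM]
    exact Finset.prod_ne_zero_iff.2 fun i _ => hm0 i
  have hMq : ∀ i, IsIntegral ℤ ((M : k) * q i) := by
    intro i
    rw [hM, ← Finset.mul_prod_erase _ _ (Finset.mem_univ i)]
    push_cast
    rw [mul_comm (m i : k), mul_assoc]
    refine IsIntegral.mul ?_ (hm i)
    rw [← Int.cast_prod]
    exact isIntegral_intCast _
  have hMk : (M : k) ≠ 0 := by exact_mod_cast hM0
  obtain ⟨S, hS⟩ : ∃ S : ℕ, ∀ φ : k →+* ℂ, ∑ i, ‖φ ((M : k) * q i)‖ ≤ S := by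
    refine ⟨⌈∑ φ : k →+* ℂ, ∑ i, ‖φ ((M : k) * q i)‖⌉₊, fun φ => ?_⟩
    refine le_trans ?_ (Nat.le_ceil _)
    exact Finset.single_le_sum (f := fun φ : k →+* ℂ => ∑ i, ‖φ ((M : k) * q i)‖)
      (fun φ _ => Finset.sum_nonneg fun i _ => norm_nonneg _) (Finset.mem_univ φ)
  have hMabs : 1 ≤ M.natAbs := Nat.one_le_iff_ne_zero.2 (Int.natAbs_ne_zero.2 hM0)
  refine ⟨(S + 1) * M.natAbs, Nat.mul_pos (by omega) hMabs, fun T hT c hc K _ _ _ => ?_⟩
  have hT' : (1 : ℝ) ≤ (T : ℝ) := by exact_mod_cast hT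
  have h1 : mulHeight₁ (algebraMap k K (∑ i, (c i : k) * ((M : k) * q i))) ≤
      (((S + 1) * T : ℕ) : ℝ) ^ Module.finrank ℚ K := by
    refine int_height _ ?_ _ ?_ fun φ => ?_
    · exact IsIntegral.sum _ fun i _ => (isIntegral_intCast _).mul (hMq i)
    · exact_mod_cast Nat.mul_pos (by omega) hT
    · rw [map_sum]
      calc ‖∑ i, φ ((c i : k) * ((M : k) * q i))‖
          ≤ ∑ i, ‖φ ((c i : k) * ((M : k) * q i))‖ := norm_sum_le _ _
        _ ≤ ∑ i, (T : ℝ) * ‖φ ((M : k) * q i)‖ := by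
            refine Finset.sum_le_sum fun i _ => ?_
            rw [map_mul, norm_mul, map_intCast, Complex.norm_intCast]
            refine mul_le_mul_of_nonneg_right ?_ (norm_nonneg _)
            exact_mod_cast hc i
        _ = (T : ℝ) * ∑ i, ‖φ ((M : k) * q i)‖ := by rw [Finset.mul_sum]
        _ ≤ (T : ℝ) * S := mul_le_mul_of_nonneg_left (hS φ) (by positivity)
        _ ≤ (((S + 1) * T : ℕ) : ℝ) := by
            push_cast
            nlinarith
  have h2 : mulHeight₁ (algebraMap k K (M : k)) ≤ ((M.natAbs : ℕ) : ℝ) ^ Module.finrank ℚ K := by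
    refine int_height _ (isIntegral_intCast _) _ (by exact_mod_cast hMabs) fun φ => ?_
    rw [map_intCast, Complex.norm_intCast, Nat.cast_natAbs, Int.cast_abs]
  have h3 : algebraMap k K (∑ i, (c i : k) * q i) =
      algebraMap k K (∑ i, (c i : k) * ((M : k) * q i)) * (algebraMap k K (M : k))⁻¹ := by
    rw [eq_mul_inv_iff_mul_eq₀ ((map_ne_zero (algebraMap k K)).2 hMk), ← map_mul, Finset.sum_mul]
    congr 1
    refine Finset.sum_congr rfl fun i _ => ?_
    ring
  rw [h3]
  refine (mulHeight₁_mul_le _ _).trans ?_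
  rw [mulHeight₁_inv]
  calc mulHeight₁ (algebraMap k K (∑ i, (c i : k) * ((M : k) * q i))) *
        mulHeight₁ (algebraMap k K (M : k))
      ≤ (((S + 1) * T : ℕ) : ℝ) ^ Module.finrank ℚ K *
        ((M.natAbs : ℕ) : ℝ) ^ Module.finrank ℚ K :=
        mul_le_mul h1 h2 (mulHeight₁_nonneg _) (by positivity)
    _ = (((S + 1) * M.natAbs * T : ℕ) : ℝ) ^ Module.finrank ℚ K := by
        rw [← mul_pow]
        congr 1
        push_cast
        ring

theorem coeff_height {k : Type} [Field k] [NumberField k] {n L M : ℕ}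
    (q : Fin M → MvPolynomial (Fin n) k) :
    ∃ C : ℕ, 1 ≤ C ∧ ∀ T : ℕ, 1 ≤ T → ∀ c : Fin L × Fin M → ℤ, (∀ p, |c p| ≤ T) →
      ∀ (K : Type) [Field K] [NumberField K] [Algebra k K] (t : Fin L) (α : Fin n →₀ ℕ),
        mulHeight₁ (coeff α (map (algebraMap k K) (∑ i, MvPolynomial.C ((c (t, i) : ℤ) : k) * q i))) ≤
          ((C * T : ℕ) : ℝ) ^ Module.finrank ℚ K := by
  classical
  have h := fun α : Fin n →₀ ℕ => comb_height fun i => coeff α (q i)
  choose C hC1 hC using h
  obtain ⟨S, hS⟩ : ∃ S : Finset (Fin n →₀ ℕ), ∀ i, (q i).support ⊆ S :=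
    ⟨Finset.univ.biUnion fun i => (q i).support, fun i =>
      Finset.subset_biUnion_of_mem (fun i => (q i).support) (Finset.mem_univ i)⟩
  refine ⟨∑ α ∈ S, C α + 1, by omega, fun T hT c hc K _ _ _ t α => ?_⟩
  have he : coeff α (map (algebraMap k K) (∑ i, MvPolynomial.C ((c (t, i) : ℤ) : k) * q i)) =
      algebraMap k K (∑ i, (c (t, i) : k) * coeff α (q i)) := by
    rw [coeff_map, coeff_sum]
    congr 1
    refine Finset.sum_congr rfl fun i _ => ?_
    rw [coeff_C_mul]
  rw [he]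
  by_cases hα : α ∈ S
  · refine (hC α T hT (fun i => c (t, i)) (fun i => hc _) K).trans ?_
    refine pow_le_pow_left₀ (by positivity) ?_ _
    have h1 : C α ≤ ∑ α ∈ S, C α + 1 :=
      (Finset.single_le_sum (f := C) (fun _ _ => Nat.zero_le _) hα).trans (Nat.le_succ _)
    exact_mod_cast Nat.mul_le_mul_right T h1
  · have h0 : ∑ i, (c (t, i) : k) * coeff α (q i) = 0 := by
      refine Finset.sum_eq_zero fun i _ => ?_
      rw [notMem_support_iff.1 fun h => hα (hS i h), mul_zero]
    rw [h0, map_zero, mulHeight₁_zero]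
    refine one_le_pow₀ ?_
    exact_mod_cast Nat.mul_pos (Nat.succ_pos _) hT

/-- the box -/
noncomputable def box (ι : Type) [Fintype ι] [DecidableEq ι] (T : ℕ) : Finset (ι → ℤ) :=
  Fintype.piFinset fun _ => Finset.Icc (-(T : ℤ)) T

theorem mem_box {ι : Type} [Fintype ι] [DecidableEq ι] {T : ℕ} {c : ι → ℤ} :
    c ∈ box ι T ↔ ∀ p, |c p| ≤ T := by
  unfold box
  rw [Fintype.mem_piFinset]
  refine forall_congr' fun p => ?_
  rw [Finset.mem_Icc, abs_le]

/-- zeros of a polynomial in a box -/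
theorem zeros_fin {r : ℕ} (P : MvPolynomial (Fin r) ℂ) (hP : P ≠ 0) (T : ℕ) :
    ((box (Fin r) T).filter fun c => eval (fun p => ((c p : ℤ) : ℂ)) P = 0).card * (2 * T + 1) ≤
      P.totalDegree * (2 * T + 1) ^ r := by
  classical
  obtain ⟨S, hS⟩ : ∃ S : Finset ℂ, S = Finset.image (fun a : ℤ => (a : ℂ)) (Finset.Icc (-(T : ℤ)) T) :=
    ⟨_, rfl⟩
  have hinj : Function.Injective fun a : ℤ => (a : ℂ) := Int.cast_injective
  have hcard : S.card = 2 * T + 1 := by
    rw [hS, Finset.card_image_of_injective _ hinj, Int.card_Icc]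
    omega
  have h1 := schwartz_zippel_totalDegree hP S
  have h2 : ((box (Fin r) T).filter fun c => eval (fun p => ((c p : ℤ) : ℂ)) P = 0).card ≤
      ((Fintype.piFinset fun _ : Fin r => S).filter fun f => eval f P = 0).card := by
    refine Finset.card_le_card_of_injOn (fun c p => ((c p : ℤ) : ℂ)) ?_ ?_
    · intro c hc
      obtain ⟨hc1, hc2⟩ := Finset.mem_filter.1 hc
      refine Finset.mem_coe.2 (Finset.mem_filter.2 ⟨?_, hc2⟩)
      rw [Fintype.mem_piFinset]
      intro p
      rw [hS, Finset.mem_image]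
      unfold box at hc1
      exact ⟨c p, Fintype.mem_piFinset.1 hc1 p, rfl⟩
    · intro c _ c' _ h
      funext p
      exact hinj (congrFun h p)
  rw [hcard] at h1
  have hpos : (0 : ℚ≥0) < ((2 * T + 1 : ℕ) : ℚ≥0) := by exact_mod_cast Nat.succ_pos _
  rw [div_le_div_iff₀ (pow_pos hpos _) hpos] at h1
  have h3 : ((Fintype.piFinset fun _ : Fin r => S).filter fun f => eval f P = 0).card *
      (2 * T + 1) ≤ P.totalDegree * (2 * T + 1) ^ r := by exact_mod_cast h1
  exact (Nat.mul_le_mul_right _ h2).trans h3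

theorem zeros_box {ι : Type} [Fintype ι] [DecidableEq ι] (P : MvPolynomial ι ℂ) (hP : P ≠ 0)
    (T : ℕ) :
    ((box ι T).filter fun c => eval (fun p => ((c p : ℤ) : ℂ)) P = 0).card * (2 * T + 1) ≤
      P.totalDegree * (2 * T + 1) ^ Fintype.card ι := by
  classical
  let e := Fintype.equivFin ι
  have hP' : rename e P ≠ 0 := by
    intro h
    apply hP
    exact rename_injective e e.injective (by rw [h, map_zero])
  have h1 := zeros_fin (rename e P) hP' T
  have h2 : ((box ι T).filter fun c => eval (fun p => ((c p : ℤ) : ℂ)) P = 0).card ≤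
      ((box (Fin (Fintype.card ι)) T).filter fun c =>
        eval (fun p => ((c p : ℤ) : ℂ)) (rename e P) = 0).card := by
    refine Finset.card_le_card_of_injOn (fun c p => c (e.symm p)) ?_ ?_
    · intro c hc
      obtain ⟨hc1, hc2⟩ := Finset.mem_filter.1 hc
      refine Finset.mem_coe.2 (Finset.mem_filter.2 ⟨?_, ?_⟩)
      · rw [mem_box] at hc1 ⊢
        exact fun p => hc1 _
      · rw [eval_rename, ← hc2]
        congr 2
        funext p
        simp
    · intro c _ c' _ h
      funext p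
      have h3 := congrFun h (e p)
      simpa using h3
  have h4 : (rename e P).totalDegree ≤ P.totalDegree := totalDegree_rename_le _ _
  exact ((Nat.mul_le_mul_right _ h2).trans h1).trans (Nat.mul_le_mul_right _ h4)

end Pool.Agent.K9h36.LG
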