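import Pool.Agent.K9h36.LG.SpC
import Pool.Agent.K9h36.LG.SpD

/-!
Almost all hypersurfaces of the family have no algebraic points of bounded degree and of height at
most a power of the coefficients outside of `v(X)`.
-/

set_option autoImplicit false

namespace Pool.Agent.K9h36.LG

open MvPolynomial Height
open Pool.Agent.N254.SQ (lin powerFormOver ver eval₂_scale lin_hom map_lin)

theorem Blk.base {k K : Type} [Field k] [Field K] [Algebra k K] {n N s M : ℕ}
    {m : Fin (N + 1) → Fin (n + 1) → ℕ} {F : Fin s → MvPolynomial (Fin (n + 1)) k} {D : ℕ}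
    {Q : Fin M → MvPolynomial (Fin (N + 1)) k} (h : Blk m F D Q) :
    Blk m (fun i => map (algebraMap k K) (F i)) D fun t => map (algebraMap k K) (Q t) := by
  intro Ω _ _ y 𝓑 hy hne hdis hcard hvan
  let _ : Algebra k Ω := ((algebraMap K Ω).comp (algebraMap k K)).toAlgebra
  have hmap : ∀ {l : ℕ} (x : Fin l → Ω) (p : MvPolynomial (Fin l) k),
      aeval x (map (algebraMap k K) p) = aeval x p := by
    intro l x p
    change eval₂ (algebraMap K Ω) x (map (algebraMap k K) p) = _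
    rw [eval₂_map]
    rfl
  obtain ⟨x, c, hx, hc, hF, hyx⟩ := h Ω y 𝓑 hy hne hdis hcard (by
    intro B hB
    rw [← hvan B hB]
    refine Finset.sum_congr rfl fun t _ => ?_
    rw [hmap])
  refine ⟨x, c, hx, hc, fun i => ?_, hyx⟩
  rw [hmap]
  exact hF i

theorem onVer_base {k K : Type} [Field k] [Field K] [Algebra k K] {n N s : ℕ}
    {m : Fin (N + 1) → Fin (n + 1) → ℕ} {F : Fin s → MvPolynomial (Fin (n + 1)) k}
    {y : Fin (N + 1) → K} (h : OnVer m (fun i => map (algebraMap k K) (F i)) y) :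
    OnVer m F y := by
  obtain ⟨x, c, hx, hc, hF, hyx⟩ := h
  refine ⟨x, c, hx, hc, fun i => ?_, hyx⟩
  rw [← hF i]
  change _ = eval₂ (algebraMap K K) x (map (algebraMap k K) (F i))
  rw [eval₂_map]
  rfl

theorem map_form {k K : Type} [Field k] [Field K] (σ : k →+* K) {N M D : ℕ}
    (Q : Fin M → MvPolynomial (Fin (N + 1)) k) :
    map σ (powerFormOver D Q) = powerFormOver D fun t => map σ (Q t) := by
  have h : powerFormOver D Q = ∑ t : Fin M, Q t * lin k N t ^ D := rfl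
  have h' : powerFormOver D (fun t => map σ (Q t)) =
    ∑ t : Fin M, map σ (Q t) * lin K N t ^ D := rfl
  rw [h, h', map_sum]
  refine Finset.sum_congr rfl fun t _ => ?_
  rw [map_mul, map_pow, map_lin]

/-- some of the linear forms does not vanish -/
theorem lin_ne {N : ℕ} {w : Fin (N + 1) → ℂ} (hw : w ≠ 0) (hN : 1 ≤ N) :
    ∃ t : Fin (N * (2 * N + 1)), ∑ j : Fin (N + 1), ((t : ℕ) : ℂ) ^ (j : ℕ) * w j ≠ 0 := by
  by_contra hcon
  push Not at hcon
  apply hw
  have hle : N + 1 ≤ N * (2 * N + 1) := by nlinarith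
  refine Matrix.eq_zero_of_forall_index_sum_pow_mul_eq_zero
    (f := fun j : Fin (N + 1) => ((j : ℕ) : ℂ)) ?_ fun j => ?_
  · intro a b hab
    simpa [Fin.ext_iff] using hab
  · exact hcon ⟨j, by omega⟩

/-- the linear form in the coefficients -/
noncomputable def lf {k : Type} [Field k] {N M : ℕ} (q : Fin M → MvPolynomial (Fin (N + 1)) k)
    (D : ℕ) (τ : k →+* ℂ) (w : Fin (N + 1) → ℂ) :
    MvPolynomial (Fin (N * (2 * N + 1)) × Fin M) ℂ :=
  ∑ p, C (eval w (map τ (q p.2)) *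
    (∑ j : Fin (N + 1), ((p.1 : ℕ) : ℂ) ^ (j : ℕ) * w j) ^ D) * X p

theorem lf_deg {k : Type} [Field k] {N M : ℕ} (q : Fin M → MvPolynomial (Fin (N + 1)) k)
    (D : ℕ) (τ : k →+* ℂ) (w : Fin (N + 1) → ℂ) : (lf q D τ w).totalDegree ≤ 1 := by
  have h : (lf q D τ w).IsHomogeneous 1 := by
    unfold lf
    refine IsHomogeneous.sum _ _ _ fun p _ => ?_
    have := (isHomogeneous_C (Fin (N * (2 * N + 1)) × Fin M) (eval w (map τ (q p.2)) *
      (∑ j : Fin (N + 1), ((p.1 : ℕ) : ℂ) ^ (j : ℕ) * w j) ^ D)).mul (isHomogeneous_X ℂ p)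
    simpa using this
  exact h.totalDegree_le

theorem lf_ne {k : Type} [Field k] {N M : ℕ} (hN : 1 ≤ N)
    (q : Fin M → MvPolynomial (Fin (N + 1)) k)
    (D : ℕ) (τ : k →+* ℂ) (w : Fin (N + 1) → ℂ) (hw : w ≠ 0) (i : Fin M)
    (hi : eval w (map τ (q i)) ≠ 0) : lf q D τ w ≠ 0 := by
  classical
  obtain ⟨t, ht⟩ := lin_ne hw hN
  intro h
  have h1 : eval (Pi.single (t, i) (1 : ℂ)) (lf q D τ w) = 0 := by rw [h, map_zero]
  unfold lf at h1
  rw [map_sum, Finset.sum_eq_single (t, i)] at h1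
  · rw [map_mul, eval_C, eval_X, Pi.single_eq_same, mul_one] at h1
    exact mul_ne_zero hi (pow_ne_zero _ ht) h1
  · intro p _ hp
    rw [map_mul, eval_C, eval_X, Pi.single_eq_of_ne hp, mul_zero]
  · intro h2
    exact absurd (Finset.mem_univ _) h2

theorem lf_eval {k : Type} [Field k] {N M : ℕ} (q : Fin M → MvPolynomial (Fin (N + 1)) k)
    (D : ℕ) (τ : k →+* ℂ) (w : Fin (N + 1) → ℂ) (c : Fin (N * (2 * N + 1)) × Fin M → ℤ) :
    eval (fun p => ((c p : ℤ) : ℂ)) (lf q D τ w) =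
      eval w (map τ (powerFormOver D fun t => ∑ i, C ((c (t, i) : ℤ) : k) * q i)) := by
  rw [map_form, eval_form]
  unfold lf
  rw [map_sum, Fintype.sum_prod_type]
  refine Finset.sum_congr rfl fun t _ => ?_
  rw [map_sum, map_sum, Finset.sum_mul]
  refine Finset.sum_congr rfl fun i _ => ?_
  simp only [map_mul, eval_C, eval_X, map_intCast]
  ring

theorem almost_all (N κ A : ℕ) (hN : 1 ≤ N) (ε : ℝ) (hε : 0 < ε) : ∃ R : ℕ,
    ∀ (k : Type) [Field k] [NumberField k] (n s M : ℕ) (m : Fin (N + 1) → Fin (n + 1) → ℕ)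
      (F : Fin s → MvPolynomial (Fin (n + 1)) k) (q : Fin M → MvPolynomial (Fin (N + 1)) k)
      (D : ℕ), R ≤ D → (∀ i, (q i).IsHomogeneous 2) →
      (∀ (Ω : Type) [Field Ω] [Algebra k Ω] (y : Fin (N + 1) → Ω), y ≠ 0 →
        (∀ i, aeval y (q i) = 0) → OnVer m F y) →
      ∀ Δ : MvPolynomial (Fin (N * (2 * N + 1)) × Fin M) k, Δ ≠ 0 →
      ∃ T₀ : ℕ, ∀ T : ℕ, T₀ ≤ T → ∀ Bad : Finset (Fin (N * (2 * N + 1)) × Fin M → ℤ),
      (∀ c ∈ Bad, (∀ p, |c p| ≤ T) ∧ (eval (fun p => ((c p : ℤ) : k)) Δ = 0 ∨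
        ∃ (K : Type) (_ : Field K) (_ : NumberField K) (_ : Algebra k K) (y : Fin (N + 1) → K),
          Blk m F D (fun t => ∑ i, C ((c (t, i) : ℤ) : k) * q i) ∧ Module.finrank ℚ K ≤ κ ∧
          y ≠ 0 ∧ aeval y (powerFormOver D fun t => ∑ i, C ((c (t, i) : ℤ) : k) * q i) = 0 ∧
          mulHeight y ≤ ((T : ℝ) ^ A) ^ Module.finrank ℚ K ∧ ¬ OnVer m F y)) →
      (Bad.card : ℝ) ≤ (T : ℝ) ^ (ε - 1) * ((2 * T + 1 : ℕ) : ℝ) ^ (N * (2 * N + 1) * M) := by
  classical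
  obtain ⟨R, δ, hδ, H⟩ := sparse N κ 2 hN (ε / (2 * (A + 1))) (by positivity)
  refine ⟨R, fun k _ _ n s M m F q D hD hq hz Δ hΔ => ?_⟩
  obtain ⟨C₀, hC₀, hC⟩ := coeff_height (L := N * (2 * N + 1)) q
  obtain ⟨τ₀⟩ : Nonempty (k →+* ℂ) := inferInstance
  obtain ⟨ν, hν⟩ : ∃ ν, ν = Fintype.card (k →+* ℂ) := ⟨_, rfl⟩
  obtain ⟨P₀, hP₀⟩ : ∃ P₀, P₀ = map τ₀ Δ := ⟨_, rfl⟩
  have hP₀0 : P₀ ≠ 0 := by
    rw [hP₀]
    intro h
    apply hΔ
    exact map_injective τ₀ τ₀.injective (by rw [h, map_zero])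
  obtain ⟨e₀, he₀⟩ : ∃ e₀, e₀ = P₀.totalDegree := ⟨_, rfl⟩
  obtain ⟨T₁, hT₁⟩ : ∃ T₁ : ℕ, ∀ T : ℕ, T₁ ≤ T → ((e₀ + ν : ℕ) : ℝ) ≤ (T : ℝ) ^ (ε / 2) := by
    refine ⟨⌈((e₀ + ν : ℕ) : ℝ) ^ (2 / ε)⌉₊, fun T hT => ?_⟩
    have h1 : ((e₀ + ν : ℕ) : ℝ) = (((e₀ + ν : ℕ) : ℝ) ^ (2 / ε)) ^ (ε / 2) := by
      rw [← Real.rpow_mul (by positivity), show (2 / ε) * (ε / 2) = 1 by field_simp,
        Real.rpow_one]
    conv_lhs => rw [h1]
    refine Real.rpow_le_rpow (by positivity) ?_ (by positivity)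
    exact (Nat.le_ceil _).trans (by exact_mod_cast hT)
  obtain ⟨T₂, hT₂⟩ : ∃ T₂ : ℕ, ∀ T : ℕ, T₂ ≤ T → (D : ℝ) ≤ (T : ℝ) ^ δ := by
    refine ⟨⌈(D : ℝ) ^ (1 / δ)⌉₊, fun T hT => ?_⟩
    have h1 : (D : ℝ) = ((D : ℝ) ^ (1 / δ)) ^ δ := by
      rw [← Real.rpow_mul (by positivity), show (1 / δ) * δ = 1 by field_simp, Real.rpow_one]
    conv_lhs => rw [h1]
    refine Real.rpow_le_rpow (by positivity) ?_ hδ.le
    exact (Nat.le_ceil _).trans (by exact_mod_cast hT)
  refine ⟨max (max T₁ T₂) (max C₀ 1), fun T hT Bad hBad => ?_⟩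
  have hTT₁ : T₁ ≤ T := ((le_max_left _ _).trans (le_max_left _ _)).trans hT
  have hTT₂ : T₂ ≤ T := ((le_max_right _ _).trans (le_max_left _ _)).trans hT
  have hTC : C₀ ≤ T := ((le_max_left _ _).trans (le_max_right _ _)).trans hT
  have hT1 : 1 ≤ T := ((le_max_right _ _).trans (le_max_right _ _)).trans hT
  have hT1' : (1 : ℝ) ≤ (T : ℝ) := by exact_mod_cast hT1
  have hT0' : (0 : ℝ) < (T : ℝ) := by linarith
  obtain ⟨B, hB⟩ : ∃ B : ℕ, B = T ^ (A + 1) := ⟨_, rfl⟩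
  have hTB : T ≤ B := by rw [hB]; exact Nat.le_self_pow (by omega) _
  have hB' : (B : ℝ) = (T : ℝ) ^ (A + 1) := by rw [hB]; push_cast; rfl
  obtain ⟨𝓣, h𝓣1, h𝓣2⟩ := H B (hT1.trans hTB)
  have hcard𝓣 : (𝓣.card : ℝ) ≤ (T : ℝ) ^ (ε / 2) := by
    refine h𝓣1.trans (le_of_eq ?_)
    rw [hB', ← Real.rpow_natCast, ← Real.rpow_mul (by positivity)]
    congr 1
    push_cast
    field_simp
  have hDB : (D : ℝ) ≤ (B : ℝ) ^ δ :=
    (hT₂ T hTT₂).trans (Real.rpow_le_rpow (by positivity) (by exact_mod_cast hTB) hδ.le)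
  -- representatives
  have hrep : ∀ W : Submodule ℂ (Fin (N + 1) → ℂ), ∃ w : Fin (N + 1) → ℂ, W ≠ ⊥ →
      w ∈ W ∧ w ≠ 0 := by
    intro W
    by_cases hW : W = ⊥
    · exact ⟨0, fun h => absurd hW h⟩
    · obtain ⟨w, hw, hw0⟩ := Submodule.exists_mem_ne_zero_of_ne_bot hW
      exact ⟨w, fun _ => ⟨hw, hw0⟩⟩
  choose w hw using hrep
  obtain ⟨J, hJ⟩ : ∃ J : Finset (Submodule ℂ (Fin (N + 1) → ℂ) × (k →+* ℂ)),
    J = (𝓣 ×ˢ Finset.univ).filter fun p => lf q D p.2 (w p.1) ≠ 0 := ⟨_, rfl⟩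
  obtain ⟨bx, hbx⟩ : ∃ bx, bx = box (Fin (N * (2 * N + 1)) × Fin M) T := ⟨_, rfl⟩
  have hsub : Bad ⊆ (bx.filter fun c => eval (fun p => ((c p : ℤ) : ℂ)) P₀ = 0) ∪
      J.biUnion fun p => bx.filter fun c =>
        eval (fun p => ((c p : ℤ) : ℂ)) (lf q D p.2 (w p.1)) = 0 := by
    intro c hc
    obtain ⟨hc1, hc2⟩ := hBad c hc
    have hcb : c ∈ bx := by
      rw [hbx, mem_box]
      exact hc1
    rw [Finset.mem_union]
    rcases hc2 with h0 | ⟨K, _, _, _, y, hBlk, hκ, hy0, hy, hht, hver⟩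
    · left
      refine Finset.mem_filter.2 ⟨hcb, ?_⟩
      have h1 : eval (fun p => ((c p : ℤ) : ℂ)) P₀ =
          τ₀ (eval (fun p => ((c p : ℤ) : k)) Δ) := by
        rw [hP₀, eval_map]
        have h2 := (eval₂_comp (f := τ₀) (g := fun p => ((c p : ℤ) : k)) Δ)
        rw [h2]
        congr 1
        funext p
        simp
      rw [h1, h0, map_zero]
    · right
      obtain ⟨σ⟩ : Nonempty (K →+* ℂ) := inferInstance
      obtain ⟨τ, hτ⟩ : ∃ τ : k →+* ℂ, τ = σ.comp (algebraMap k K) := ⟨_, rfl⟩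
      obtain ⟨Q, hQ⟩ : ∃ Q : Fin (N * (2 * N + 1)) → MvPolynomial (Fin (N + 1)) k,
        Q = fun t => ∑ i, C ((c (t, i) : ℤ) : k) * q i := ⟨_, rfl⟩
      rw [← hQ] at hBlk hy
      have hQ2 : ∀ t, (Q t).IsHomogeneous 2 := by
        intro t
        rw [hQ]
        refine IsHomogeneous.sum _ _ _ fun i _ => ?_
        have := (isHomogeneous_C (Fin (N + 1)) ((c (t, i) : ℤ) : k)).mul (hq i)
        simpa using this
      have hmem := h𝓣2 D hD hDB K σ n s m (fun i => map (algebraMap k K) (F i))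
        (fun t => map (algebraMap k K) (Q t)) hκ (fun t => (hQ2 t).map _) hBlk.base (by
          intro t α
          rw [hQ]
          refine (hC T hT1 c hc1 K t α).trans (pow_le_pow_left₀ (by positivity) ?_ _)
          rw [hB']
          calc ((C₀ * T : ℕ) : ℝ) ≤ (T : ℝ) ^ 2 := by
                push_cast
                rw [pow_two]
                gcongr
            _ ≤ ((T : ℝ) ^ (A + 1)) ^ 2 :=
                pow_le_pow_left₀ (by positivity) (le_self_pow₀ hT1' (by omega)) _) y hy0 (by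
          rw [← map_form, eval_map]
          exact hy) (fun h => hver (onVer_base h)) (by
          refine hht.trans (pow_le_pow_left₀ (by positivity) ?_ _)
          rw [hB']
          exact pow_le_pow_right₀ hT1' (by omega))
      have hσy : (fun j => σ (y j)) ≠ 0 := by
        intro h
        apply hy0
        funext j
        have h1 := congrFun h j
        simpa using h1
      obtain ⟨W, hW⟩ : ∃ W, W = Submodule.span ℂ {fun j => σ (y j)} := ⟨_, rfl⟩
      rw [← hW] at hmem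
      have hWb : W ≠ ⊥ := by
        rw [hW]
        intro h
        exact hσy (Submodule.span_singleton_eq_bot.1 h)
      obtain ⟨hw1, hw2⟩ := hw W hWb
      rw [hW, Submodule.mem_span_singleton, ← hW] at hw1
      obtain ⟨l, hl⟩ := hw1
      have hl0 : l ≠ 0 := by
        rintro rfl
        rw [zero_smul] at hl
        exact hw2 hl.symm
      have hmapσ : ∀ p : MvPolynomial (Fin (N + 1)) k,
          eval (fun j => σ (y j)) (map τ p) = σ (aeval y p) := by
        intro p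
        rw [hτ, eval_map]
        change _ = σ (eval₂ (algebraMap k K) y p)
        rw [eval₂_comp_left σ (algebraMap k K) y p]
        rfl
      obtain ⟨i, hi⟩ : ∃ i, aeval y (q i) ≠ 0 := by
        by_contra hcon
        push Not at hcon
        exact hver (hz K y hy0 hcon)
      have hlf : lf q D τ (w W) ≠ 0 := by
        refine lf_ne hN q D τ (w W) hw2 i ?_
        rw [← hl]
        have h1 : eval (l • fun j => σ (y j)) (map τ (q i)) =
            l ^ 2 * eval (fun j => σ (y j)) (map τ (q i)) :=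
          eval₂_scale (RingHom.id ℂ) ((hq i).map τ) _ _
        rw [h1, hmapσ]
        exact mul_ne_zero (pow_ne_zero _ hl0) ((map_ne_zero σ).2 hi)
      rw [Finset.mem_biUnion]
      refine ⟨(W, τ), ?_, Finset.mem_filter.2 ⟨hcb, ?_⟩⟩
      · rw [hJ]
        exact Finset.mem_filter.2 ⟨Finset.mem_product.2 ⟨hmem, Finset.mem_univ _⟩, hlf⟩
      · change eval (fun p => ((c p : ℤ) : ℂ)) (lf q D τ (w W)) = 0
        rw [lf_eval, ← hQ, ← hl]
        have h1 : eval (l • fun j => σ (y j)) (map τ (powerFormOver D Q)) =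
            l ^ (2 + D) * eval (fun j => σ (y j)) (map τ (powerFormOver D Q)) :=
          eval₂_scale (RingHom.id ℂ) ((form_hom hQ2).map τ) _ _
        rw [h1, hmapσ, hy, map_zero, mul_zero]
  have hr : Fintype.card (Fin (N * (2 * N + 1)) × Fin M) = N * (2 * N + 1) * M := by
    rw [Fintype.card_prod, Fintype.card_fin, Fintype.card_fin]
  have hcardJ : J.card ≤ 𝓣.card * ν := by
    rw [hJ, hν, ← Finset.card_univ, ← Finset.card_product]
    exact Finset.card_filter_le _ _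
  have hfin : Bad.card * (2 * T + 1) ≤
      (e₀ + 𝓣.card * ν) * (2 * T + 1) ^ (N * (2 * N + 1) * M) := by
    rw [← hr]
    calc Bad.card * (2 * T + 1)
        ≤ ((bx.filter fun c => eval (fun p => ((c p : ℤ) : ℂ)) P₀ = 0).card +
          ∑ p ∈ J, (bx.filter fun c =>
            eval (fun p => ((c p : ℤ) : ℂ)) (lf q D p.2 (w p.1)) = 0).card) * (2 * T + 1) := by
          refine Nat.mul_le_mul_right _ ?_
          refine (Finset.card_le_card hsub).trans ((Finset.card_union_le _ _).trans ?_)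
          exact Nat.add_le_add_left Finset.card_biUnion_le _
      _ = (bx.filter fun c => eval (fun p => ((c p : ℤ) : ℂ)) P₀ = 0).card * (2 * T + 1) +
          ∑ p ∈ J, (bx.filter fun c =>
            eval (fun p => ((c p : ℤ) : ℂ)) (lf q D p.2 (w p.1)) = 0).card * (2 * T + 1) := by
          rw [add_mul, Finset.sum_mul]
      _ ≤ e₀ * (2 * T + 1) ^ Fintype.card (Fin (N * (2 * N + 1)) × Fin M) +
          ∑ _p ∈ J, 1 * (2 * T + 1) ^ Fintype.card (Fin (N * (2 * N + 1)) × Fin M) := by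
          refine Nat.add_le_add ?_ (Finset.sum_le_sum fun p hp => ?_)
          · rw [hbx, he₀]
            exact zeros_box P₀ hP₀0 T
          · rw [hJ, Finset.mem_filter] at hp
            rw [hbx]
            exact (zeros_box _ hp.2 T).trans (Nat.mul_le_mul_right _ (lf_deg _ _ _ _))
      _ = (e₀ + J.card) * (2 * T + 1) ^ Fintype.card (Fin (N * (2 * N + 1)) × Fin M) := by
          rw [Finset.sum_const, smul_eq_mul]
          ring
      _ ≤ _ := Nat.mul_le_mul_right _ (Nat.add_le_add_left hcardJ _)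
  have hTε : (1 : ℝ) ≤ (T : ℝ) ^ (ε / 2) := Real.one_le_rpow hT1' (by positivity)
  have hfinR : (Bad.card : ℝ) * (T : ℝ) ≤
      (T : ℝ) ^ ε * ((2 * T + 1 : ℕ) : ℝ) ^ (N * (2 * N + 1) * M) := by
    have h1 : (Bad.card : ℝ) * ((2 * T + 1 : ℕ) : ℝ) ≤
        ((e₀ : ℝ) + 𝓣.card * ν) * ((2 * T + 1 : ℕ) : ℝ) ^ (N * (2 * N + 1) * M) := by
      exact_mod_cast hfin
    have h2 : (e₀ : ℝ) + 𝓣.card * ν ≤ (T : ℝ) ^ ε := by
      calc (e₀ : ℝ) + 𝓣.card * ν ≤ (T : ℝ) ^ (ε / 2) * e₀ + (T : ℝ) ^ (ε / 2) * ν := by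
            refine add_le_add ?_ (mul_le_mul_of_nonneg_right hcard𝓣 (by positivity))
            exact le_mul_of_one_le_left (by positivity) hTε
        _ = (T : ℝ) ^ (ε / 2) * ((e₀ + ν : ℕ) : ℝ) := by
            push_cast
            ring
        _ ≤ (T : ℝ) ^ (ε / 2) * (T : ℝ) ^ (ε / 2) :=
            mul_le_mul_of_nonneg_left (hT₁ T hTT₁) (by positivity)
        _ = (T : ℝ) ^ ε := by
            rw [← Real.rpow_add hT0']
            congr 1
            ring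
    have h3 : (T : ℝ) ≤ ((2 * T + 1 : ℕ) : ℝ) := by
      push_cast
      linarith
    calc (Bad.card : ℝ) * (T : ℝ) ≤ (Bad.card : ℝ) * ((2 * T + 1 : ℕ) : ℝ) :=
          mul_le_mul_of_nonneg_left h3 (by positivity)
      _ ≤ _ := h1
      _ ≤ _ := mul_le_mul_of_nonneg_right h2 (by positivity)
  rw [Real.rpow_sub hT0', Real.rpow_one, div_mul_eq_mul_div, le_div_iff₀ hT0']
  exact hfinR

end Pool.Agent.K9h36.LG
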