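import Pool.Agent.K9h36.LG.Dim
import Pool.Agent.K9h36.LG.Pts
import Pool.Agent.N254.SQ.Numf
import Pool.Agent.N254.SQ.Desc

/-!
Closed subsets of hypersurfaces outside of which there are only finitely many points over every number
field.
-/

set_option autoImplicit false

namespace Pool.Agent.K9h36.LG

open MvPolynomial
open Pool.Agent.W602.GT (SubVar GeneralType coords)
open Pool.Agent.N254.SQ (IsForm Eqs Component GenericPoint SmoothOver powerFormOver Gen Idl Good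
  Mon ver pull pull_hom eval_pull reduce Fm FiniteOff ver_ne_zero ver_prop ver_smul t_idls t_restr
  t_numf t_desc)
open scoped LinearAlgebra.Projectivization

/-- `G` vanishes on the closed subset given by `T` in `A = 0` -/
def OnClosed {N : ℕ} (T : Set (MvPolynomial (Fin (N + 1)) ℂ)) (A : MvPolynomial (Fin (N + 1)) ℂ)
    (G : MvPolynomial (Fin (N + 1)) ℂ) : Prop :=
  ∀ x : Fin (N + 1) → ℂ, x ≠ 0 → eval x A = 0 → (∀ p ∈ T, eval x p = 0) → eval x G = 0

theorem idl_closed {N : ℕ} (T : Set (MvPolynomial (Fin (N + 1)) ℂ))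
    (A : MvPolynomial (Fin (N + 1)) ℂ) : Idl (OnClosed T A) where
  zero := fun x _ _ _ => map_zero _
  add := fun e G G' _ _ h h' x hx hA hT => by
    rw [map_add, h x hx hA hT, h' x hx hA hT, add_zero]
  mul := fun G F _ _ h x hx hA hT => by
    rw [map_mul, h x hx hA hT, zero_mul]
  rad := fun G r _ h x hx hA hT => by
    have h2 := h x hx hA hT
    rw [map_pow] at h2
    by_contra h1
    exact pow_ne_zero r h1 h2

theorem closed_fin {N : ℕ} {T : Set (MvPolynomial (Fin (N + 1)) ℂ)}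
    {A : MvPolynomial (Fin (N + 1)) ℂ} (hT : ∀ G ∈ T, FiniteOff {A} G)
    {G : MvPolynomial (Fin (N + 1)) ℂ} (hG : OnClosed T A G) : FiniteOff {A} G := by
  classical
  obtain ⟨T', hT', hT2⟩ := reduce T
  intro L₀ hL₀
  have h2 : (⋃ F ∈ T', {P : ℙ ℂ (Fin (N + 1) → ℂ) |
      ∃ (x : Fin (N + 1) → ℂ) (hx : x ≠ 0), P = Projectivization.mk ℂ x hx ∧ (∀ j, x j ∈ L₀) ∧
        (∀ p ∈ ({A} : Set _), eval x p = 0) ∧ eval x F ≠ 0}).Finite :=
    T'.finite_toSet.biUnion fun F hF => hT F (hT' hF) L₀ hL₀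
  refine h2.subset ?_
  rintro P ⟨x, hx, hP, hxL, hxA, hxG⟩
  by_contra hcon
  simp only [Set.mem_iUnion, not_exists] at hcon
  apply hxG
  refine hG x hx (hxA A rfl) fun p hp => ?_
  have h5 := hT2 ℂ (RingHom.id ℂ) x (fun q hq => by
    rw [map_id]
    by_contra h6
    exact hcon q hq ⟨x, hx, hP, hxL, hxA, h6⟩) p hp
  rwa [map_id] at h5

/-- the algebraic closure of a number field -/
theorem exists_closure (k : Type) [Field k] [NumberField k] [Algebra k ℂ] :
    ∃ (B : Type) (_ : Field B) (_ : CharZero B) (_ : IsAlgClosed B) (_ : Algebra k B)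
      (_ : IsGalois k B) (_ : Algebra B ℂ) (_ : IsScalarTower k B ℂ), Algebra.IsAlgebraic ℚ B := by
  let φ : AlgebraicClosure k →ₐ[k] ℂ := IsAlgClosed.lift
  letI : Algebra (AlgebraicClosure k) ℂ := φ.toRingHom.toAlgebra
  refine ⟨AlgebraicClosure k, inferInstance,
    charZero_of_injective_algebraMap (algebraMap k (AlgebraicClosure k)).injective, inferInstance,
    inferInstance, inferInstance, inferInstance,
    IsScalarTower.of_algebraMap_eq fun z => (φ.commutes z).symm, ?_⟩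
  exact Algebra.IsAlgebraic.trans ℚ k (AlgebraicClosure k)

/-! ### the Veronese map on points -/

/-- the map of the projective spaces -/
noncomputable def vmap {n N d : ℕ} {m : Fin (N + 1) → Fin (n + 1) → ℕ} (hm : Mon n N d m)
    (hd : 1 ≤ d) (P : ℙ ℂ (Fin (n + 1) → ℂ)) : ℙ ℂ (Fin (N + 1) → ℂ) :=
  Projectivization.mk ℂ (ver m P.rep) (ver_ne_zero hm hd P.rep_nonzero)

theorem vmap_inj {n N d : ℕ} {m : Fin (N + 1) → Fin (n + 1) → ℕ} (hm : Mon n N d m) (hd : 1 ≤ d) :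
    Function.Injective (vmap hm hd) := by
  intro P P' hP
  obtain ⟨a, ha⟩ := (Projectivization.mk_eq_mk_iff ℂ _ _ _ _).1 hP
  obtain ⟨c, hc⟩ := ver_prop (c := (a : ℂ)) hm hd P.rep_nonzero ha.symm
  have hc0 : c ≠ 0 := by
    intro h0
    rw [h0, zero_smul] at hc
    exact P.rep_nonzero hc
  rw [← P.mk_rep, ← P'.mk_rep, Projectivization.mk_eq_mk_iff]
  exact ⟨Units.mk0 c hc0, hc.symm⟩

theorem vmap_mk {n N d : ℕ} {m : Fin (N + 1) → Fin (n + 1) → ℕ} (hm : Mon n N d m) (hd : 1 ≤ d)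
    {x : Fin (n + 1) → ℂ} (hx : x ≠ 0) : vmap hm hd (Projectivization.mk ℂ x hx) =
      Projectivization.mk ℂ (ver m x) (ver_ne_zero hm hd hx) := by
  obtain ⟨a, ha⟩ := Projectivization.exists_smul_eq_mk_rep ℂ x hx
  have h1 : (Projectivization.mk ℂ x hx).rep = (a : ℂ) • x := ha.symm
  unfold vmap
  rw [Projectivization.mk_eq_mk_iff]
  refine ⟨a ^ d, ?_⟩
  rw [h1, ver_smul hm]
  rw [Units.smul_def, Units.val_pow_eq_pow_val]

theorem fin_pull {n N d : ℕ} {m : Fin (N + 1) → Fin (n + 1) → ℕ}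
    {S T : Set (MvPolynomial (Fin (n + 1)) ℂ)} {A : MvPolynomial (Fin (N + 1)) ℂ}
    (hg : Good n N d m T A) (hST : ∀ x : Fin (n + 1) → ℂ, (∀ p ∈ S, eval x p = 0) →
      ∀ p ∈ T, eval x p = 0) {G : MvPolynomial (Fin (N + 1)) ℂ} (hG : FiniteOff {A} G) :
    FiniteOff S (pull m G) := by
  intro L₀ hL₀
  apply Set.Finite.of_finite_image (f := vmap hg.mon hg.deg) ((hG L₀ hL₀).subset ?_)
    (vmap_inj hg.mon hg.deg).injOn
  rintro _ ⟨P, ⟨x, hx, hPx, hxL, hxS, hxG⟩, rfl⟩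
  refine ⟨ver m x, ver_ne_zero hg.mon hg.deg hx, ?_, ?_, ?_, ?_⟩
  · rw [hPx]
    exact vmap_mk hg.mon hg.deg hx
  · intro j
    exact prod_mem fun s _ => pow_mem (hxL s) _
  · intro p hp
    rw [Set.mem_singleton_iff] at hp
    rw [hp]
    exact hg.sub ℂ x (hST x hxS)
  · rw [← eval_pull]
    exact hxG

/-! ### the two directions -/

/-- from the hypersurface over the field of rational numbers to the variety -/
theorem strong_back {k : Type} [Field k] [NumberField k] [Algebra k ℂ] {n : ℕ}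
    {S : Set (MvPolynomial (Fin (n + 1)) k)} {L : Type} [Field L] [Algebra ℂ L] {w r : ℕ}
    {y : Fin (n + 1) → L} (hS : ∀ p ∈ S, ∃ e, p.IsHomogeneous e) (hw : 1 ≤ w) (hr : r ≤ w)
    (hy : GenericPoint S L w y) (hGT : GeneralType ℂ L w) {D₁ : ℕ → ℕ} (H : Hyp D₁) (E : Set ℕ)
    (hE : E.Infinite)
    (h : ∀ (N D : ℕ) (Q : Fin (N * (2 * N + 1)) → MvPolynomial (Fin (N + 1)) ℚ), D ∈ E →
      D₁ N ≤ D → (∀ t, (Q t).IsHomogeneous 2) → SmoothOver (powerFormOver D Q) →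
      ∃ T : Set (MvPolynomial (Fin (N + 1)) ℂ), (∀ G ∈ T, FiniteOff
          {map (algebraMap ℚ ℂ) (powerFormOver D Q)} G) ∧
        ∀ (L : Type) [Field L] [Algebra ℂ L] (w : ℕ) (y : Fin (N + 1) → L), r ≤ w → Gen L w y →
          Component (OnClosed T (map (algebraMap ℚ ℂ) (powerFormOver D Q))) y →
          ¬ GeneralType ℂ L w) :
    ∃ R : MvPolynomial (Fin (n + 1)) k, (∃ e, R.IsHomogeneous e) ∧
      aeval y (map (algebraMap k ℂ) R) ≠ 0 ∧
      FiniteOff (map (algebraMap k ℂ) '' S) (map (algebraMap k ℂ) R) := by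
  obtain ⟨B, iF, iC, iA, iK, iG, iBC, iT, iQ⟩ := exists_closure k
  letI : Algebra B L := ((algebraMap ℂ L).comp (algebraMap B ℂ)).toAlgebra
  have : IsScalarTower B ℂ L := IsScalarTower.of_algebraMap_eq fun z => rfl
  have : CharZero L := charZero_of_injective_algebraMap (algebraMap ℂ L).injective
  have hn : 1 ≤ n := dim_pos hy.sub.gen hy.sub.dim hw
  obtain ⟨T, d, N, D, m, Q, hTS, hD, hD1, hQ, hsm, hv, hg⟩ := H ℚ n
    {F | (∃ e, F.IsHomogeneous e) ∧ aeval y (map (algebraMap ℚ ℂ) F) = 0} hn (fun p hp => hp.1) E hE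
  obtain ⟨Z, hZ1, hZ2⟩ := h N D Q hD hD1 hQ hsm
  have hyT := (hTS L y).2 fun p hp => hp.2
  obtain ⟨G, hG, hGI, hGy⟩ := key hg hw hr
    ⟨hy.sub.ne, fun p => hyT p p.2, hy.sub.gen, hy.sub.dim⟩ hGT
    (by
      intro L' _ _ x hx hxy F hF hFy
      have : CharZero L' := charZero_of_injective_algebraMap (algebraMap ℂ L').injective
      refine closure_eq B hS hy x (fun P hP hPy => ?_) hxy F hF hFy
      have h1 := (hTS L' x).1 hx P ⟨hP, by
        rw [aeval_map_algebraMap]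
        exact hPy⟩
      rwa [aeval_map_algebraMap] at h1)
    (idl_closed Z (map (algebraMap ℚ ℂ) (powerFormOver D Q)))
    (fun x _ hxA _ => hxA)
    (fun L' _ _ w' y' _ hrw' hy' hcomp => hZ2 L' w' y' hrw' hy' hcomp)
  obtain ⟨e, he⟩ := id hG
  have hfin : FiniteOff (map (algebraMap k ℂ) '' S) (pull m G) := by
    refine fin_pull hg (fun x hx => ?_) (closed_fin hZ1 hGI)
    intro p hp
    refine (hTS ℂ x).2 (fun F hF => ?_) p hp
    obtain ⟨⟨e', he'⟩, hF2⟩ := hF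
    exact hy.all _ ⟨e', he'.map _⟩ hF2 x fun q hq => by
      have h1 := hx _ ⟨q, hq, rfl⟩
      rw [eval_map] at h1
      exact h1
  exact to_field B hy ⟨_, pull_hom hg.mon he⟩ hGy hfin

/-- a component of general type is defined over a number field -/
theorem strong_forth {N : ℕ} (A : MvPolynomial (Fin (N + 1)) ℂ) {L : Type} [Field L]
    [Algebra ℂ L] {w : ℕ} {y : Fin (N + 1) → L} (hy : Gen L w y)
    (hcomp : Component (FiniteOff {A}) y)
    (h : ∀ (k : Type) [Field k] [NumberField k] [Algebra k ℂ]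
      (S : Set (MvPolynomial (Fin (N + 1)) k)), (∀ p ∈ S, ∃ e, p.IsHomogeneous e) →
      GenericPoint S L w y → ∃ R : MvPolynomial (Fin (N + 1)) k, (∃ e, R.IsHomogeneous e) ∧
      aeval y (map (algebraMap k ℂ) R) ≠ 0 ∧
      ∀ (K : Type) [Field K] [NumberField K] [Algebra k K],
        {P : ℙ K (Fin (N + 1) → K) | (∀ p ∈ S, aeval P.rep p = 0) ∧ aeval P.rep R ≠ 0}.Finite) :
    False := by
  obtain ⟨hc1, H, hH, hHy, hc2⟩ := hcomp
  have key : ∀ G, IsForm G → FiniteOff (Eqs y) G → aeval y G = 0 := by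
    intro G hG hGf
    have h1 := t_restr.finite N {A} L y G H hG hH hc2 hGf
    obtain ⟨e, he⟩ := id hG
    obtain ⟨e', he'⟩ := id hH
    have h4 := hc1 (G * H) ⟨_, he.mul he'⟩ h1
    rw [map_mul, mul_eq_zero] at h4
    exact h4.resolve_right hHy
  have dense : ∀ G, Fm G → (aeval y G = 0 ↔
      ∀ x ∈ {x : Fin (N + 1) → ℂ | (∀ j, IsAlgebraic ℚ (x j)) ∧ ∀ F ∈ Eqs y, eval x F = 0},
        eval x G = 0) := by
    intro G hG
    constructor
    · intro h0 x hx
      exact hx.2 G ⟨hG, h0⟩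
    · intro h0
      apply key G hG
      intro L₀ hL₀
      refine Set.finite_empty.subset ?_
      rintro P ⟨x, hx, -, hxL, hxS, hxG⟩
      apply hxG
      refine h0 x ⟨fun j => ?_, hxS⟩
      have h1 := Algebra.IsAlgebraic.isAlgebraic (R := ℚ) (⟨x j, hxL j⟩ : L₀)
      exact h1.algHom L₀.val
  obtain ⟨k, -, hk, S, hS1, hS2, hS3⟩ := t_numf t_desc N L w y hy _ (fun x hx => hx.1) dense ⊥
    inferInstance
  have hnf : NumberField k := ⟨⟩
  obtain ⟨R, hR1, hR2, hR3⟩ := h k (S : Set (MvPolynomial (Fin (N + 1)) k)) (fun p hp => hS1 p hp)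
    ⟨⟨hy.ne, by
      rintro ⟨p, hp⟩
      exact hS2 p hp, hy.gen, hy.dim⟩, by
      intro G hG hGy x hx
      exact hS3 G hG hGy ℂ x fun p hp => by
        rw [aeval_map_algebraMap]
        exact hx p hp⟩
  apply hR2
  obtain ⟨e, he⟩ := id hR1
  apply key _ ⟨e, he.map _⟩
  have h1 := of_abstract (k := k) (fun p hp => hS1 p hp) hR1 hR3
  intro L₀ hL₀
  refine (h1 L₀ hL₀).subset ?_
  rintro P ⟨x, hx, hP, hxL, hxS, hxR⟩
  refine ⟨x, hx, hP, hxL, ?_, hxR⟩
  rintro _ ⟨p, hp, rfl⟩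
  obtain ⟨e', he'⟩ := hS1 p hp
  exact hxS _ ⟨⟨e', he'.map _⟩, hS2 p hp⟩

end Pool.Agent.K9h36.LG
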